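import Pool.Agent.Lib.MP_e75782_lc.Defs

/-!
# Unions of cells
-/

set_option autoImplicit false

namespace Pool.Agent.Lib.MP_e75782_lc

namespace CellDecomp

variable {E : Type} [MetricSpace E] {S : Set E} {ι : Type} (C : CellDecomp S ι)

/-- `F` is a union of cells. -/
def IsUnion (F : Set E) : Prop :=
  F ⊆ S ∧ ∀ i, (C.cell i ∩ F).Nonempty → C.cell i ⊆ F

theorem cell_subset (i : ι) : C.cell i ⊆ S :=
  (Set.subset_iUnion C.cell i).trans C.cover.le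

theorem exists_cell {x : E} (hx : x ∈ S) : ∃ i, x ∈ C.cell i :=
  Set.mem_iUnion.1 (C.cover.ge hx)

variable {C} {F G : Set E}

theorem isUnion_self : C.IsUnion S := ⟨subset_rfl, fun i _ => C.cell_subset i⟩

theorem IsUnion.diff (hF : C.IsUnion F) (hG : C.IsUnion G) : C.IsUnion (F \ G) := by
  refine ⟨Set.sdiff_subset.trans hF.1, ?_⟩
  rintro i ⟨x, hx, hxF, hxG⟩ y hy
  refine ⟨hF.2 i ⟨x, hx, hxF⟩ hy, fun hyG => hxG (hG.2 i ⟨y, hy, hyG⟩ hx)⟩

theorem IsUnion.inter (hF : C.IsUnion F) (hG : C.IsUnion G) : C.IsUnion (F ∩ G) := by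
  refine ⟨Set.inter_subset_left.trans hF.1, ?_⟩
  rintro i ⟨x, hx, hxF, hxG⟩ y hy
  exact ⟨hF.2 i ⟨x, hx, hxF⟩ hy, hG.2 i ⟨x, hx, hxG⟩ hy⟩

theorem IsUnion.closure [Finite ι] (hF : C.IsUnion F) : C.IsUnion (S ∩ _root_.closure F) := by
  refine ⟨Set.inter_subset_left, ?_⟩
  rintro i ⟨x, hx, hxS, hxF⟩
  have hFeq : F = ⋃ j ∈ {j | C.cell j ⊆ F}, C.cell j := by
    apply Set.Subset.antisymm
    · intro y hy
      obtain ⟨j, hj⟩ := C.exists_cell (hF.1 hy)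
      exact Set.mem_iUnion₂.2 ⟨j, hF.2 j ⟨y, hj, hy⟩, hj⟩
    · exact Set.iUnion₂_subset fun j hj => hj
  have hfin : {j | C.cell j ⊆ F}.Finite := Set.toFinite _
  rw [hFeq, hfin.closure_biUnion] at hxF
  obtain ⟨j, hj, hxj⟩ := Set.mem_iUnion₂.1 hxF
  intro y hy
  refine ⟨C.cell_subset i hy, closure_mono hj (C.front i j ⟨x, hx, hxj⟩ hy)⟩

/-- A relatively open and closed subset of a union of cells is a union of cells. -/
theorem IsUnion.clopen (hF : C.IsUnion F) {O O' : Set E} (hO : IsOpen O) (hO' : IsOpen O')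
    (hcov : F ⊆ O ∪ O') (hd : ∀ x ∈ F, x ∈ O → x ∉ O') : C.IsUnion (F ∩ O) := by
  refine ⟨Set.inter_subset_left.trans hF.1, ?_⟩
  rintro i ⟨x, hx, hxF, hxO⟩ y hy
  have hi := hF.2 i ⟨x, hx, hxF⟩
  refine ⟨hi hy, ?_⟩
  by_contra hyO
  have hyO' : y ∈ O' := (hcov (hi hy)).resolve_left hyO
  obtain ⟨z, hz, hz1, hz2⟩ := C.conn i O O' hO hO' (hi.trans hcov) ⟨x, hx, hxO⟩ ⟨y, hy, hyO'⟩
  exact hd z (hi hz) hz1 hz2

theorem isUnion_cube (D : ℕ) : C.IsUnion {p | p ∈ S ∧ CubeAt S D p} := by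
  refine ⟨fun p hp => hp.1, ?_⟩
  rintro i ⟨x, hx, hxS, hxD⟩ y hy
  exact ⟨C.cell_subset i hy, C.homog D i x hx y hy hxD⟩

/-- Counting cells. -/
theorem IsUnion.card_le [Fintype ι] (hF : C.IsUnion F) {n : ℕ} (x : Fin n → E)
    (hx : ∀ a, x a ∈ F)
    (hsep : ∀ a b, a < b → ∀ Q ⊆ F, IsPreconnected Q → x a ∈ Q → x b ∉ Q) :
    n ≤ Fintype.card ι := by
  have h1 : ∀ a, ∃ i, x a ∈ C.cell i := fun a => C.exists_cell (hF.1 (hx a))
  choose f hf using h1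
  have hinj : Function.Injective f := by
    have key : ∀ a b, a < b → f a ≠ f b := by
      intro a b hab he
      refine hsep a b hab (C.cell (f a)) (hF.2 _ ⟨x a, hf a, hx a⟩) (C.conn _) (hf a) ?_
      rw [he]; exact hf b
    intro a b he
    rcases lt_trichotomy a b with h | h | h
    · exact absurd he (key a b h)
    · exact h
    · exact absurd he.symm (key b a h)
  simpa using Fintype.card_le_of_injective f hinj

end CellDecomp

end Pool.Agent.Lib.MP_e75782_lc
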