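import Pool.Agent.Lib.MP_e75782_lc.Game1

/-!
# The iterated closures compute the iterated tent map
-/

set_option autoImplicit false

namespace Pool.Agent.Lib.MP_e75782_lc

open Filter Topology

variable {m : ℕ}

/-- Bound for the Lipschitz constants of all iterates which we use. -/
noncomputable def Lam (m : ℕ) : ℝ := 2 ^ (2 ^ m)

noncomputable def aa (m i : ℕ) : ℝ := bb m - i * ((1 + Lam m) * eta m)

noncomputable def ba (m i : ℕ) : ℝ := bb m * (1 + Lam m) ^ i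

theorem tent_lip (x y : ℝ) : |tent x - tent y| ≤ 2 * |x - y| := by
  have h : tent x - tent y = |2 * y - 1| - |2 * x - 1| := by unfold tent; ring
  rw [h]
  refine (abs_abs_sub_abs_le_abs_sub _ _).trans ?_
  have h2 : (2 * y - 1) - (2 * x - 1) = 2 * (y - x) := by ring
  rw [h2, abs_mul, abs_sub_comm y x]
  norm_num

theorem game2_iter_lip (n : ℕ) (x y : ℝ) : |tent^[n] x - tent^[n] y| ≤ 2 ^ n * |x - y| := by
  induction n with
  | zero => simp
  | succ n ih =>
    rw [Function.iterate_succ_apply', Function.iterate_succ_apply']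
    refine (tent_lip _ _).trans ?_
    rw [pow_succ]
    linarith

theorem tent_iter_lip {i : ℕ} (hi : i ≤ m) (x y : ℝ) :
    |tent^[2 ^ i] x - tent^[2 ^ i] y| ≤ Lam m * |x - y| := by
  refine (game2_iter_lip _ x y).trans (mul_le_mul_of_nonneg_right ?_ (abs_nonneg _))
  exact pow_le_pow_right₀ (by norm_num) (Nat.pow_le_pow_right (by norm_num) hi)

theorem tent_iter_mem {x : ℝ} (hx : x ∈ Set.Icc (0 : ℝ) 1) (n : ℕ) :
    tent^[n] x ∈ Set.Icc (0 : ℝ) 1 := by
  induction n with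
  | zero => exact hx
  | succ n ih =>
    rw [Function.iterate_succ_apply']
    obtain ⟨h0, h1⟩ := ih
    have h2 : |2 * tent^[n] x - 1| ≤ 1 := abs_le.2 ⟨by linarith, by linarith⟩
    have h3 := abs_nonneg (2 * tent^[n] x - 1)
    exact ⟨by unfold tent; unfold tent at h2; linarith, by
      unfold tent; unfold tent at h3; linarith⟩

theorem eta_pos : 0 < eta m := by
  unfold eta
  positivity

theorem game2_Lam_pos : 0 < Lam m := by
  unfold Lam
  positivity

theorem game2_bb_pos : 0 < bb m := by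
  unfold bb
  positivity

theorem game2_eta_eq : eta m = bb m * bb m := by
  unfold eta bb
  rw [← pow_add]
  congr 1
  rw [pow_succ 2 (2 * m + 1)]
  ring

theorem game2_bb_mul : bb m * 2 ^ (2 ^ (2 * m + 1)) = 1 := by
  unfold bb
  rw [← mul_pow]
  norm_num

theorem game2_Lam_le : 1 + Lam m ≤ 2 ^ (2 ^ m + 1) := by
  unfold Lam
  have h : (1 : ℝ) ≤ 2 ^ (2 ^ m) := one_le_pow₀ (by norm_num)
  rw [pow_succ]
  linarith

theorem game2_small1 : (m : ℝ) * (1 + Lam m) * bb m < 1 := by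
  have h1 : (m : ℝ) * (1 + Lam m) < 2 ^ (2 ^ (2 * m + 1)) := by
    have h2 : (m : ℝ) < 2 ^ m := by exact_mod_cast Nat.lt_two_pow_self
    have h3 : (m : ℝ) * (1 + Lam m) < 2 ^ m * 2 ^ (2 ^ m + 1) := by
      have h4 : (0 : ℝ) < 1 + Lam m := by linarith [game2_Lam_pos (m := m)]
      calc (m : ℝ) * (1 + Lam m) < 2 ^ m * (1 + Lam m) := mul_lt_mul_of_pos_right h2 h4
        _ ≤ 2 ^ m * 2 ^ (2 ^ m + 1) := mul_le_mul_of_nonneg_left game2_Lam_le (by positivity)
    refine h3.trans_le ?_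
    rw [← pow_add]
    refine pow_le_pow_right₀ (by norm_num) ?_
    have h5 : m + 1 ≤ 2 ^ m := Nat.lt_two_pow_self
    have h6 : 2 ^ (2 * m + 1) = 2 * (2 ^ m * 2 ^ m) := by
      rw [pow_succ, two_mul m, pow_add]; ring
    have h7 : 1 ≤ 2 ^ m := Nat.one_le_two_pow
    rw [h6]
    nlinarith
  have h8 := mul_lt_mul_of_pos_right h1 (game2_bb_pos (m := m))
  have h9 := game2_bb_mul (m := m)
  linarith

theorem aa_pos {i : ℕ} (hi : i ≤ m) : 0 < aa m i := by
  unfold aa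
  have h1 : (i : ℝ) ≤ m := by exact_mod_cast hi
  have h2 := game2_small1 (m := m)
  have h3 := game2_bb_pos (m := m)
  have h4 := game2_Lam_pos (m := m)
  rw [game2_eta_eq]
  have h5 : (i : ℝ) * ((1 + Lam m) * (bb m * bb m)) ≤ (m : ℝ) * (1 + Lam m) * bb m * bb m := by
    have : (i : ℝ) * ((1 + Lam m) * (bb m * bb m)) ≤ (m : ℝ) * ((1 + Lam m) * (bb m * bb m)) :=
      mul_le_mul_of_nonneg_right h1 (by positivity)
    linarith
  have h6 : (m : ℝ) * (1 + Lam m) * bb m * bb m < 1 * bb m := mul_lt_mul_of_pos_right h2 h3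
  linarith

theorem ba_lt_one {i : ℕ} (hi : i ≤ m) : ba m i < 1 := by
  unfold ba
  have h3 := game2_bb_pos (m := m)
  have h4 := game2_Lam_pos (m := m)
  have h1 : (1 + Lam m) ^ i < 2 ^ (2 ^ (2 * m + 1)) := by
    calc (1 + Lam m) ^ i ≤ (1 + Lam m) ^ m := pow_le_pow_right₀ (by linarith) hi
      _ ≤ (2 ^ (2 ^ m + 1)) ^ m := pow_le_pow_left₀ (by linarith) game2_Lam_le m
      _ = 2 ^ ((2 ^ m + 1) * m) := by rw [← pow_mul]
      _ < 2 ^ (2 ^ (2 * m + 1)) := by
        refine pow_lt_pow_right₀ (by norm_num) ?_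
        have h5 : m + 1 ≤ 2 ^ m := Nat.lt_two_pow_self
        have h6 : 2 ^ (2 * m + 1) = 2 * (2 ^ m * 2 ^ m) := by
          rw [pow_succ, two_mul m, pow_add]; ring
        rw [h6]
        nlinarith
  have h8 := mul_lt_mul_of_pos_left h1 h3
  have h9 := game2_bb_mul (m := m)
  linarith

theorem game2_aa_succ (i : ℕ) : eta m + aa m (i + 1) + Lam m * eta m = aa m i := by
  unfold aa
  push_cast
  ring

theorem game2_ba_succ (i : ℕ) : ba m i + Lam m * ba m i = ba m (i + 1) := by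
  unfold ba
  ring

theorem game2_iter_two (i : ℕ) (x : ℝ) : tent^[2 ^ i] (tent^[2 ^ i] x) = tent^[2 ^ (i + 1)] x := by
  have h : 2 ^ (i + 1) = 2 ^ i + 2 ^ i := by rw [pow_succ]; ring
  rw [h, Function.iterate_add_apply]

/-! ### Open conditions -/

theorem game2_closure {F : Set (Pt m)} {p : Pt m} (h : ∀ᶠ q in 𝓝 p, q ∉ F) : p ∉ closure F := by
  rw [mem_closure_iff_frequently]
  exact fun hf => hf h

theorem game2_cont_tent (n : ℕ) : Continuous (tent^[n]) := by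
  have : Continuous tent := by unfold tent; fun_prop
  exact this.iterate n

theorem game2_closed_near (η : ℝ) :
    IsClosed {x : (ℝ × ℝ) × (ℝ × ℝ) × (ℝ × ℝ) | Near η x.1 x.2.1 x.2.2} := by
  have h1 : IsClosed {x : (ℝ × ℝ) × (ℝ × ℝ) × (ℝ × ℝ) | |x.1.1 - x.2.1.1| ≤ η} :=
    isClosed_le (by fun_prop) continuous_const
  have h2 : IsClosed {x : (ℝ × ℝ) × (ℝ × ℝ) × (ℝ × ℝ) | |x.1.2 - x.2.2.1| ≤ η} :=
    isClosed_le (by fun_prop) continuous_const
  have h3 : IsClosed {x : (ℝ × ℝ) × (ℝ × ℝ) × (ℝ × ℝ) | |x.1.1 - x.2.2.1| ≤ η} :=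
    isClosed_le (by fun_prop) continuous_const
  have h4 : IsClosed {x : (ℝ × ℝ) × (ℝ × ℝ) × (ℝ × ℝ) | |x.1.2 - x.2.1.2| ≤ η} :=
    isClosed_le (by fun_prop) continuous_const
  exact (h1.inter h2).union (h3.inter h4)

theorem game2_open_nearS (η : ℝ) :
    IsOpen {x : (ℝ × ℝ) × (ℝ × ℝ) × (ℝ × ℝ) | NearS η x.1 x.2.1 x.2.2} := by
  have h1 : IsOpen {x : (ℝ × ℝ) × (ℝ × ℝ) × (ℝ × ℝ) | |x.1.1 - x.2.1.1| < η} :=
    isOpen_lt (by fun_prop) continuous_const
  have h2 : IsOpen {x : (ℝ × ℝ) × (ℝ × ℝ) × (ℝ × ℝ) | |x.1.2 - x.2.2.1| < η} :=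
    isOpen_lt (by fun_prop) continuous_const
  have h3 : IsOpen {x : (ℝ × ℝ) × (ℝ × ℝ) × (ℝ × ℝ) | |x.1.1 - x.2.2.1| < η} :=
    isOpen_lt (by fun_prop) continuous_const
  have h4 : IsOpen {x : (ℝ × ℝ) × (ℝ × ℝ) × (ℝ × ℝ) | |x.1.2 - x.2.1.2| < η} :=
    isOpen_lt (by fun_prop) continuous_const
  exact (h1.inter h2).union (h3.inter h4)

theorem game2_contY {p : Pt m} {j l : ℕ} (hp : p ∈ Xs m j) (h : j ≤ 2 * l) :
    ContinuousAt (fun q : Pt m => (Y q (2 * l), Y q (2 * l + 2), Y q (2 * l + 1))) p :=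
  (continuousAt_Y hp h).prodMk ((continuousAt_Y hp (by omega)).prodMk
    (continuousAt_Y hp (by omega)))

theorem game2_not_near {p : Pt m} {j l : ℕ} {η : ℝ} (hp : p ∈ Xs m j) (h : j ≤ 2 * l)
    (hn : ¬ Near η (Y p (2 * l)) (Y p (2 * l + 2)) (Y p (2 * l + 1))) :
    ∀ᶠ q in 𝓝 p, ¬ Near η (Y q (2 * l)) (Y q (2 * l + 2)) (Y q (2 * l + 1)) :=
  (game2_contY hp h).eventually ((game2_closed_near η).isOpen_compl.mem_nhds hn)

theorem game2_nearS {p : Pt m} {j l : ℕ} {η : ℝ} (hp : p ∈ Xs m j) (h : j ≤ 2 * l)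
    (hn : NearS η (Y p (2 * l)) (Y p (2 * l + 2)) (Y p (2 * l + 1))) :
    ∀ᶠ q in 𝓝 p, NearS η (Y q (2 * l)) (Y q (2 * l + 2)) (Y q (2 * l + 1)) :=
  (game2_contY hp h).eventually ((game2_open_nearS η).mem_nhds hn)

theorem game2_nearS_near {η : ℝ} {a b z : ℝ × ℝ} (h : NearS η a b z) : Near η a b z := by
  rcases h with h | h
  · exact Or.inl ⟨h.1.le, h.2.le⟩
  · exact Or.inr ⟨h.1.le, h.2.le⟩

/-! ### The induction -/

/-- The statement of the induction. -/
def Game2Even (m i : ℕ) : Prop := ∀ p : Pt m,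
    (p ∈ FF m (2 * i) →
      (∀ l, i ≤ l → l < m → Near (eta m) (Y p (2 * l)) (Y p (2 * l + 2)) (Y p (2 * l + 1))) ∧
        aa m i ≤ |(Y p (2 * i)).2 - tent^[2 ^ i] (Y p (2 * i)).1|) ∧
    (p ∈ Xs m (2 * i) →
      (∀ l, i ≤ l → l < m → NearS (eta m) (Y p (2 * l)) (Y p (2 * l + 2)) (Y p (2 * l + 1))) →
        ba m i < |(Y p (2 * i)).2 - tent^[2 ^ i] (Y p (2 * i)).1| → p ∈ FF m (2 * i))

theorem game2_FF_sub {j : ℕ} {p : Pt m} (h : p ∈ FF m j) : p ∈ Xs m j := by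
  cases j with
  | zero => exact h.1
  | succ j => exact h.1

theorem game2_out1 {i : ℕ} (hi : i < m) (ih : Game2Even m i) {p : Pt m}
    (hp : p ∈ FF m (2 * i + 1))
    (hn : ∀ l, i + 1 ≤ l → l < m →
      NearS (eta m) (Y p (2 * l)) (Y p (2 * l + 2)) (Y p (2 * l + 1))) :
    |(Y p (2 * i + 1)).1 - tent^[2 ^ i] (Y p (2 * i + 2)).1| ≤ ba m i ∧
      |(Y p (2 * i + 2)).2 - tent^[2 ^ i] (Y p (2 * i + 1)).1| ≤ ba m i := by
  have hX : p ∈ Xs m (2 * i + 1) := hp.1
  have hcl : p ∉ closure (FF m (2 * i)) := hp.2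
  have hη := eta_pos (m := m)
  have key : ∀ y : ℝ × ℝ, y.1 ∈ Set.Icc (0 : ℝ) 1 → y.2 ∈ Set.Icc (0 : ℝ) 1 →
      NearS (eta m) y (Y p (2 * i + 2)) (Y p (2 * i + 1)) →
      |y.2 - tent^[2 ^ i] y.1| ≤ ba m i := by
    intro y h1 h2 hy
    by_contra hlt
    push Not at hlt
    obtain ⟨p', hp'X, hp'F, hp'y, hp'e⟩ := stepOut (by omega : 2 * i < 2 * m) hX hcl h1 h2
    apply hp'F
    apply (ih p').2 hp'X
    · intro l hl hlm
      rcases Nat.eq_or_lt_of_le hl with rfl | hl'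
      · rw [hp'y, hp'e _ (by omega), hp'e _ (by omega)]
        exact hy
      · rw [hp'e _ (by omega), hp'e _ (by omega), hp'e _ (by omega)]
        exact hn l hl' hlm
    · rw [hp'y]
      exact hlt
  have hXX := hX.1
  constructor
  · exact key ((Y p (2 * i + 2)).1, (Y p (2 * i + 1)).1) (Y_mem1 hXX _) (Y_mem1 hXX _)
      (Or.inl ⟨by simpa using hη, by simpa using hη⟩)
  · exact key ((Y p (2 * i + 1)).1, (Y p (2 * i + 2)).2) (Y_mem1 hXX _) (Y_mem2 hXX _)
      (Or.inr ⟨by simpa using hη, by simpa using hη⟩)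

theorem game2_in1 {i : ℕ} (hi : i < m) (ih : Game2Even m i) {p : Pt m}
    (hp : p ∈ Xs m (2 * i + 1))
    (hn : (∃ l, i + 1 ≤ l ∧ l < m ∧
        ¬ Near (eta m) (Y p (2 * l)) (Y p (2 * l + 2)) (Y p (2 * l + 1))) ∨
      (|(Y p (2 * i + 1)).1 - tent^[2 ^ i] (Y p (2 * i + 2)).1| < aa m (i + 1) ∧
        |(Y p (2 * i + 2)).2 - tent^[2 ^ i] (Y p (2 * i + 1)).1| < aa m (i + 1))) :
    p ∈ FF m (2 * i + 1) := by
  refine ⟨hp, game2_closure ?_⟩
  rcases hn with ⟨l, hl, hlm, hnl⟩ | ⟨h1, h2⟩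
  · filter_upwards [game2_not_near hp (by omega) hnl] with q hq hqF
    exact hq (((ih q).1 hqF).1 l (by omega) hlm)
  · have c1 : ContinuousAt (fun q : Pt m =>
        |(Y q (2 * i + 1)).1 - tent^[2 ^ i] (Y q (2 * i + 2)).1|) p := by
      have e1 := (continuousAt_Y hp (i := 2 * i + 1) le_rfl).fst
      have e2 := (continuousAt_Y hp (i := 2 * i + 2) (by omega)).fst
      exact (e1.sub ((game2_cont_tent _).continuousAt.comp e2)).abs
    have c2 : ContinuousAt (fun q : Pt m =>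
        |(Y q (2 * i + 2)).2 - tent^[2 ^ i] (Y q (2 * i + 1)).1|) p := by
      have e1 := (continuousAt_Y hp (i := 2 * i + 1) le_rfl).fst
      have e2 := (continuousAt_Y hp (i := 2 * i + 2) (by omega)).snd
      exact (e2.sub ((game2_cont_tent _).continuousAt.comp e1)).abs
    filter_upwards [c1.eventually_lt continuousAt_const h1,
      c2.eventually_lt continuousAt_const h2] with q hq1 hq2 hqF
    obtain ⟨g1, g2⟩ := (ih q).1 hqF
    have g3 := g1 i le_rfl hi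
    have hs := game2_aa_succ (m := m) i
    have hΛ := game2_Lam_pos (m := m)
    rcases g3 with ⟨k1, k2⟩ | ⟨k1, k2⟩
    · have l1 := tent_iter_lip hi.le (Y q (2 * i + 2)).1 (Y q (2 * i)).1
      have l2 : |(Y q (2 * i)).2 - tent^[2 ^ i] (Y q (2 * i)).1| ≤
          |(Y q (2 * i)).2 - (Y q (2 * i + 1)).1| +
          |(Y q (2 * i + 1)).1 - tent^[2 ^ i] (Y q (2 * i + 2)).1| +
          |tent^[2 ^ i] (Y q (2 * i + 2)).1 - tent^[2 ^ i] (Y q (2 * i)).1| := by
        refine le_trans (le_of_eq ?_) (abs_add_three _ _ _)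
        congr 1; ring
      rw [abs_sub_comm (Y q (2 * i + 2)).1] at l1
      have l3 := mul_le_mul_of_nonneg_left k1 hΛ.le
      linarith
    · have l1 := tent_iter_lip hi.le (Y q (2 * i + 1)).1 (Y q (2 * i)).1
      have l2 : |(Y q (2 * i)).2 - tent^[2 ^ i] (Y q (2 * i)).1| ≤
          |(Y q (2 * i)).2 - (Y q (2 * i + 2)).2| +
          |(Y q (2 * i + 2)).2 - tent^[2 ^ i] (Y q (2 * i + 1)).1| +
          |tent^[2 ^ i] (Y q (2 * i + 1)).1 - tent^[2 ^ i] (Y q (2 * i)).1| := by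
        refine le_trans (le_of_eq ?_) (abs_add_three _ _ _)
        congr 1; ring
      rw [abs_sub_comm (Y q (2 * i + 1)).1] at l1
      have l3 := mul_le_mul_of_nonneg_left k1 hΛ.le
      linarith

theorem game2_step {i : ℕ} (hi : i < m) (ih : Game2Even m i) : Game2Even m (i + 1) := by
  intro p
  have e2 : 2 * (i + 1) = 2 * i + 1 + 1 := by ring
  constructor
  · intro hp
    rw [e2] at hp
    have hX : p ∈ Xs m (2 * i + 1 + 1) := hp.1
    have hcl : p ∉ closure (FF m (2 * i + 1)) := hp.2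
    have hu := Y_mem1 hX.1 (2 * i + 2)
    obtain ⟨p', hp'X, hp'F, hp'y, hp'e⟩ := stepOut (by omega : 2 * i + 1 < 2 * m) hX hcl
      (y := (tent^[2 ^ i] (Y p (2 * i + 2)).1, 0)) (tent_iter_mem hu _) (by simp)
    have hbase : Y p' (2 * i + 2) = Y p (2 * i + 2) := hp'e _ (by omega)
    constructor
    · intro l hl hlm
      by_contra hnl
      apply hp'F
      apply game2_in1 hi ih hp'X
      refine Or.inl ⟨l, hl, hlm, ?_⟩
      rw [hp'e _ (by omega), hp'e _ (by omega), hp'e _ (by omega)]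
      exact hnl
    · by_contra hlt
      push Not at hlt
      apply hp'F
      apply game2_in1 hi ih hp'X
      refine Or.inr ⟨?_, ?_⟩
      · rw [hp'y, hbase]
        simpa using aa_pos (m := m) (i := i + 1) hi
      · rw [hp'y, hbase]
        simp only
        rw [game2_iter_two]
        exact hlt
  · intro hX hn hlt
    rw [e2] at hX ⊢
    refine ⟨hX, game2_closure ?_⟩
    have hu : 2 * (i + 1) = 2 * i + 2 := by ring
    rw [hu] at hlt
    have c1 : ContinuousAt (fun q : Pt m =>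
        |(Y q (2 * i + 2)).2 - tent^[2 ^ (i + 1)] (Y q (2 * i + 2)).1|) p := by
      have e1 := (continuousAt_Y hX (i := 2 * i + 2) le_rfl).fst
      have e2 := (continuousAt_Y hX (i := 2 * i + 2) le_rfl).snd
      exact (e2.sub ((game2_cont_tent _).continuousAt.comp e1)).abs
    have hnn : ∀ᶠ q in 𝓝 p, ∀ l ∈ Finset.range m, i + 1 ≤ l →
        NearS (eta m) (Y q (2 * l)) (Y q (2 * l + 2)) (Y q (2 * l + 1)) := by
      rw [Filter.eventually_all_finset]
      intro l hl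
      by_cases hil : i + 1 ≤ l
      · filter_upwards [game2_nearS hX (by omega) (hn l hil (Finset.mem_range.1 hl))] with q hq _
        exact hq
      · exact Filter.Eventually.of_forall fun q h => absurd h hil
    filter_upwards [continuousAt_const.eventually_lt c1 hlt, hnn] with q hq1 hq2 hqF
    obtain ⟨g1, g2⟩ := game2_out1 hi ih hqF (fun l hl hlm => hq2 l (Finset.mem_range.2 hlm) hl)
    have l1 := tent_iter_lip hi.le (Y q (2 * i + 1)).1 (tent^[2 ^ i] (Y q (2 * i + 2)).1)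
    rw [game2_iter_two] at l1
    have l2 : |(Y q (2 * i + 2)).2 - tent^[2 ^ (i + 1)] (Y q (2 * i + 2)).1| ≤
        |(Y q (2 * i + 2)).2 - tent^[2 ^ i] (Y q (2 * i + 1)).1| +
        |tent^[2 ^ i] (Y q (2 * i + 1)).1 - tent^[2 ^ (i + 1)] (Y q (2 * i + 2)).1| :=
      abs_sub_le _ _ _
    have l3 := mul_le_mul_of_nonneg_left g1 (game2_Lam_pos (m := m)).le
    have l4 := game2_ba_succ (m := m) i
    linarith

theorem game2_all {i : ℕ} (hi : i ≤ m) : Game2Even m i := by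
  induction i with
  | zero =>
    intro p
    constructor
    · rintro ⟨-, h1, h2⟩
      refine ⟨fun l _ hlm => h1 l hlm, ?_⟩
      simpa [aa] using h2
    · intro hX hn hlt
      refine ⟨hX, fun l hlm => game2_nearS_near (hn l (Nat.zero_le l) hlm), ?_⟩
      have : bb m < |(Y p 0).2 - tent (Y p 0).1| := by simpa [ba] using hlt
      exact this.le
  | succ i ih => exact game2_step hi (ih (by omega))

/-- The sets with an even number of blocks. -/
theorem FF_even {i : ℕ} (hi : i ≤ m) (p : Pt m) :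
    (p ∈ FF m (2 * i) →
      (∀ l, i ≤ l → l < m → Near (eta m) (Y p (2 * l)) (Y p (2 * l + 2)) (Y p (2 * l + 1))) ∧
        aa m i ≤ |(Y p (2 * i)).2 - tent^[2 ^ i] (Y p (2 * i)).1|) ∧
    (p ∈ Xs m (2 * i) →
      (∀ l, i ≤ l → l < m → NearS (eta m) (Y p (2 * l)) (Y p (2 * l + 2)) (Y p (2 * l + 1))) →
        ba m i < |(Y p (2 * i)).2 - tent^[2 ^ i] (Y p (2 * i)).1| → p ∈ FF m (2 * i)) :=
  game2_all hi p

theorem not_mem_FF {p : Pt m} (h : tent^[2 ^ m] (p .u) = 0) : p ∉ FF m (2 * m) := by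
  intro hp
  have h1 := ((FF_even le_rfl p).1 hp).2
  rw [Y_top] at h1
  simp only [h] at h1
  have h2 := aa_pos (m := m) (i := m) le_rfl
  simp at h1
  linarith

theorem mem_FF {p : Pt m} (hp : p ∈ Xs m (2 * m)) (h : tent^[2 ^ m] (p .u) = 1) :
    p ∈ FF m (2 * m) := by
  refine (FF_even le_rfl p).2 hp (fun l hl hlm => absurd hl (by omega)) ?_
  rw [Y_top]
  simp only [h]
  have h2 := ba_lt_one (m := m) (i := m) le_rfl
  simpa using h2

end Pool.Agent.Lib.MP_e75782_lc
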