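import Pool.Agent.Lib.MP_e75782_lc.Strata
import Pool.Agent.Lib.MP_e75782_lc.Game2

/-!
# Counting the components
-/

set_option autoImplicit false

namespace Pool.Agent.Lib.MP_e75782_lc

variable {m : ℕ} {ι : Type}

theorem tent_dyadic (N : ℕ) : ∀ j : ℕ, j ≤ 2 ^ N →
    tent^[N] ((j : ℝ) / 2 ^ N) = if Even j then 0 else 1 := by
  induction N with
  | zero =>
    intro j hj
    have h1 : j = 0 ∨ j = 1 := by
      have : j ≤ 1 := by simpa using hj
      omega
    rcases h1 with rfl | rfl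
    · simp
    · simp
  | succ N ih =>
    intro j hj
    rw [Function.iterate_succ_apply]
    have hpos : (0 : ℝ) < 2 ^ N := by positivity
    rcases le_or_gt j (2 ^ N) with hle | hgt
    · have h1 : (j : ℝ) ≤ 2 ^ N := by exact_mod_cast hle
      have h2 : tent ((j : ℝ) / 2 ^ (N + 1)) = (j : ℝ) / 2 ^ N := by
        have h3 : 2 * ((j : ℝ) / 2 ^ (N + 1)) = (j : ℝ) / 2 ^ N := by
          rw [pow_succ]; field_simp
        unfold tent
        rw [h3]
        have h4 : (j : ℝ) / 2 ^ N ≤ 1 := (div_le_one hpos).2 h1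
        rw [abs_of_nonpos (by linarith)]
        ring
      rw [h2]
      exact ih j hle
    · have h1 : (2 : ℝ) ^ N ≤ j := by exact_mod_cast hgt.le
      have h2 : tent ((j : ℝ) / 2 ^ (N + 1)) = ((2 ^ (N + 1) - j : ℕ) : ℝ) / 2 ^ N := by
        have h3 : 2 * ((j : ℝ) / 2 ^ (N + 1)) = (j : ℝ) / 2 ^ N := by
          rw [pow_succ]; field_simp
        unfold tent
        rw [h3]
        have h4 : 1 ≤ (j : ℝ) / 2 ^ N := (one_le_div hpos).2 h1
        rw [abs_of_nonneg (by linarith), Nat.cast_sub hj]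
        push_cast
        rw [pow_succ]
        field_simp
        ring
      rw [h2, ih (2 ^ (N + 1) - j) (by rw [pow_succ] at *; omega)]
      have h5 : Even (2 ^ (N + 1) - j) ↔ Even j := by
        rw [Nat.even_sub hj]
        have : Even (2 ^ (N + 1)) := by
          rw [pow_succ]; exact even_two.mul_left _
        simp [this]
      simp only [h5]

/-- The test points. -/
private noncomputable def cpt (m : ℕ) (u : ℝ) : Pt m := fun v =>
  match v with
  | .u => u
  | .e l => (1 / 2) ^ (2 ^ (l : ℕ))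
  | _ => 0

private theorem cpt_mem {u : ℝ} (h0 : 0 ≤ u) (h1 : u ≤ 1) : cpt m u ∈ Xs m (2 * m) := by
  have hdl : ∀ j, dl (cpt m u) j = if j < 2 * m then 0 else 1 := by
    intro j
    unfold dl
    split_ifs <;> rfl
  have hwv : ∀ j c, wv (cpt m u) j c = if j < 2 * m then 0 else (if c then 0 else u) := by
    intro j c
    unfold wv
    split_ifs <;> rfl
  refine ⟨⟨?_, ?_, ?_, ?_, ?_⟩, rfl, ⟨rfl, fun _ => rfl, fun _ => rfl⟩, ?_, ?_⟩
  · intro j
    rw [hdl]
    split_ifs <;> norm_num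
  · intro j
    rw [hdl, hdl]
    split_ifs with h2 h3
    · norm_num
    · norm_num
    · omega
    · norm_num
  · intro j c
    rw [hwv]
    split_ifs <;> first | exact le_rfl | exact h0
  · intro j c
    rw [hwv, hdl]
    split_ifs <;> first | exact le_rfl | exact h1 | norm_num
  · intro l
    rfl
  · intro i hi
    rw [hdl, if_pos hi]
  · rw [hdl, if_neg (by omega)]
    norm_num

/-- Every decomposition of our set into cells has very many cells. -/
theorem card_cells (hm : 0 < m) [Fintype ι] (C : CellDecomp (SS m) ι) :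
    2 ^ (2 ^ m - 1) ≤ Fintype.card ι := by
  have hN : 2 ^ (2 ^ m) = 2 * 2 ^ (2 ^ m - 1) := by
    rw [← pow_succ']
    congr 1
    have : 0 < 2 ^ m := by positivity
    omega
  have hpos : (0 : ℝ) < 2 ^ (2 ^ m) := by positivity
  refine CellDecomp.IsUnion.card_le (isUnion_FF hm C le_rfl)
    (fun a : Fin (2 ^ (2 ^ m - 1)) => cpt m (((2 * (a : ℕ) + 1 : ℕ) : ℝ) / 2 ^ (2 ^ m))) ?_ ?_
  · intro a
    have ha := a.2
    have hle : 2 * (a : ℕ) + 1 ≤ 2 ^ (2 ^ m) := by omega
    apply mem_FF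
    · apply cpt_mem
      · positivity
      · rw [div_le_one hpos]
        exact_mod_cast hle
    · change tent^[2 ^ m] (((2 * (a : ℕ) + 1 : ℕ) : ℝ) / 2 ^ (2 ^ m)) = 1
      rw [tent_dyadic (2 ^ m) _ hle, if_neg]
      rw [Nat.not_even_iff_odd]
      exact ⟨a, rfl⟩
  · intro a b hab Q hQ hQc haQ hbQ
    have hb := b.2
    have hab' : (a : ℕ) < (b : ℕ) := hab
    have hcont : ContinuousOn (fun p : Pt m => p .u) Q := (continuous_apply _).continuousOn
    have h1 := hQc.intermediate_value haQ hbQ hcont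
    have h2 : (((2 * (a : ℕ) + 2 : ℕ) : ℝ) / 2 ^ (2 ^ m)) ∈
        Set.Icc (((2 * (a : ℕ) + 1 : ℕ) : ℝ) / 2 ^ (2 ^ m))
          (((2 * (b : ℕ) + 1 : ℕ) : ℝ) / 2 ^ (2 ^ m)) := by
      constructor
      · apply div_le_div_of_nonneg_right _ hpos.le
        exact_mod_cast (by omega : 2 * (a : ℕ) + 1 ≤ 2 * (a : ℕ) + 2)
      · apply div_le_div_of_nonneg_right _ hpos.le
        exact_mod_cast (by omega : 2 * (a : ℕ) + 2 ≤ 2 * (b : ℕ) + 1)
    obtain ⟨q, hq, hqu⟩ := h1 h2
    refine not_mem_FF (p := q) ?_ (hQ hq)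
    have hqu' : q .u = ((2 * (a : ℕ) + 2 : ℕ) : ℝ) / 2 ^ (2 ^ m) := hqu
    rw [hqu', tent_dyadic (2 ^ m) _ (by omega), if_pos]
    exact ⟨a + 1, by ring⟩

end Pool.Agent.Lib.MP_e75782_lc
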