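import Pool.Agent.Lib.MP_e75782_lc.Defs
import Pool.Agent.Lib.Brouwer.Basic

/-!
# A cube does not embed into a space of smaller dimension
-/

set_option autoImplicit false

namespace Pool.Agent.Lib.MP_e75782_lc

/-- There is no continuous injection of the `D`-dimensional cube into `ℝ^κ` if `|κ| < D`. -/
theorem no_cube {κ : Type} [Fintype κ] {D : ℕ} (h : Fintype.card κ < D)
    (g : (Fin D → Set.Icc (0 : ℝ) 1) → (κ → ℝ)) (hg : Continuous g) :
    ¬ Function.Injective g := by
  intro hinj
  -- polynomial approximation of the coordinates of the inverse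
  let gc : κ → C(Fin D → Set.Icc (0 : ℝ) 1, ℝ) := fun j => ⟨fun x => g x j, by fun_prop⟩
  let ev : MvPolynomial κ ℝ →ₐ[ℝ] C(Fin D → Set.Icc (0 : ℝ) 1, ℝ) := MvPolynomial.aeval gc
  have hev : ∀ (p : MvPolynomial κ ℝ) x, ev p x = MvPolynomial.eval (g x) p := by
    intro p x
    induction p using MvPolynomial.induction_on with
    | C a => simp [ev]
    | add p q hp hq => simp only [map_add, ContinuousMap.add_apply, hp, hq]
    | mul_X p j hp =>
      simp only [map_mul, ContinuousMap.mul_apply, hp, MvPolynomial.eval_X]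
      congr 1
      simp [ev, gc]
  have hsep : ev.range.SeparatesPoints := by
    intro x y hxy
    have h1 : g x ≠ g y := fun h => hxy (hinj h)
    obtain ⟨j, hj⟩ := Function.ne_iff.1 h1
    refine ⟨ev (MvPolynomial.X j), ⟨_, ⟨_, rfl⟩, rfl⟩, ?_⟩
    simp only [hev, MvPolynomial.eval_X]
    exact hj
  have happ : ∀ i : Fin D, ∃ p : MvPolynomial κ ℝ, ∀ x : Fin D → Set.Icc (0 : ℝ) 1,
      |MvPolynomial.eval (g x) p - x i| < 1 / 4 := by
    intro i
    obtain ⟨⟨q, p, hp⟩, hq⟩ := ContinuousMap.exists_mem_subalgebra_near_continuous_of_separatesPoints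
      ev.range hsep (fun x : Fin D → Set.Icc (0 : ℝ) 1 => (x i : ℝ)) (by fun_prop) (1 / 4)
      (by norm_num)
    refine ⟨p, fun x => ?_⟩
    have h1 := hq x
    simp only at h1
    rw [← hp] at h1
    have h2 : (ev : MvPolynomial κ ℝ →+* C(Fin D → Set.Icc (0 : ℝ) 1, ℝ)) p x =
      MvPolynomial.eval (g x) p := hev p x
    rw [Real.norm_eq_abs] at h1
    rw [← h2]
    exact h1
  choose p hp using happ
  let f : (κ → ℝ) → (Fin D → ℝ) := fun y i => MvPolynomial.eval y (p i)
  have hf : ContDiff ℝ 1 f := by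
    rw [contDiff_pi]
    intro i
    have h1 : (fun y : κ → ℝ => f y i) =
        fun y => ∑ d ∈ (p i).support, (p i).coeff d * ∏ j, y j ^ d j := by
      funext y
      exact MvPolynomial.eval_eq' y (p i)
    rw [h1]
    exact ContDiff.sum fun d _ => contDiff_const.mul
      (contDiff_prod fun j _ => (contDiff_apply ℝ ℝ j).pow _)
  have hdense := hf.dense_compl_range_of_finrank_lt_finrank (by simpa using h)
  have hopen : IsOpen (Set.pi Set.univ (fun _ : Fin D => Set.Ioo (1 / 4 : ℝ) (3 / 4))) :=
    isOpen_set_pi Set.finite_univ (fun _ _ => isOpen_Ioo)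
  obtain ⟨c, hcm, hc⟩ := hdense.inter_open_nonempty _ hopen ⟨fun _ => 1 / 2, fun _ _ => by norm_num⟩
  apply hc
  let pr : (Fin D → ℝ) → (Fin D → Set.Icc (0 : ℝ) 1) := fun x i => Set.projIcc 0 1 zero_le_one (x i)
  have hpr : Continuous pr := continuous_pi fun i => continuous_projIcc.comp (continuous_apply i)
  obtain ⟨x, hx, hx'⟩ := Pool.Agent.Brouwer.brouwer_box (ι := Fin D) 1 zero_le_one
    (fun x => x - f (g (pr x)) + c)
    (((continuous_id.sub (hf.continuous.comp (hg.comp hpr))).add continuous_const).continuousOn) (by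
      intro x hx
      have h1 : ∀ i, ((pr x i : Set.Icc (0 : ℝ) 1) : ℝ) = x i := fun i => by
        have : x i ∈ Set.Icc (0 : ℝ) 1 := ⟨hx.1 i, hx.2 i⟩
        simp only [pr]
        rw [Set.projIcc_of_mem zero_le_one this]
      have h2 : ∀ i, |f (g (pr x)) i - x i| < 1 / 4 := fun i => by
        rw [← h1 i]
        exact hp i (pr x)
      constructor
      · intro i
        have h3 := abs_lt.1 (h2 i)
        have h4 := hcm i (Set.mem_univ i)
        simp only [Pi.add_apply, Pi.sub_apply, Pi.zero_apply]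
        linarith [h4.1, h3.2]
      · intro i
        have h3 := abs_lt.1 (h2 i)
        have h4 := hcm i (Set.mem_univ i)
        simp only [Pi.add_apply, Pi.sub_apply]
        linarith [h4.2, h3.1])
  refine ⟨g (pr x), ?_⟩
  have h5 : x - f (g (pr x)) + c = x := hx'
  funext i
  have h6 := congrFun h5 i
  simp only [Pi.add_apply, Pi.sub_apply] at h6
  linarith

end Pool.Agent.Lib.MP_e75782_lc
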