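import Pool.Agent.Lib.MP_e75782_lc.Tri

/-!
# The example: internal definitions
-/

set_option autoImplicit false

namespace Pool.Agent.Lib.MP_e75782_lc

/-- Every neighbourhood of `x` in `S` contains a copy of the `D`-dimensional cube. -/
def CubeAt {E : Type} [MetricSpace E] (S : Set E) (D : ℕ) (x : E) : Prop :=
  ∀ ε > 0, ∃ g : (Fin D → Set.Icc (0 : ℝ) 1) → E, Continuous g ∧ Function.Injective g ∧
    ∀ t, g t ∈ S ∧ dist (g t) x < ε

/-- The properties of the decomposition of `S` into the open simplices which we use. -/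
structure CellDecomp {E : Type} [MetricSpace E] (S : Set E) (ι : Type) where
  cell : ι → Set E
  cover : ⋃ i, cell i = S
  conn : ∀ i, IsPreconnected (cell i)
  front : ∀ i j, (cell i ∩ closure (cell j)).Nonempty → cell i ⊆ closure (cell j)
  homog : ∀ (D : ℕ) (i : ι), ∀ p ∈ cell i, ∀ q ∈ cell i, CubeAt S D p → CubeAt S D q

/-- The coordinates of our example. -/
inductive Var (m : ℕ) : Type
  | u : Var m
  | w (j : Fin (2 * m)) (c : Bool) : Var m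
  | δ (j : Fin (2 * m)) : Var m
  | τ : Var m
  | e (l : Fin (2 * m + 3)) : Var m
  | r : Var m
  | t (j : Fin (2 * m)) : Var m
  | s (i : Fin (8 * m + 6)) : Var m
  deriving DecidableEq, Fintype

/-- The points of the ambient space. -/
abbrev Pt (m : ℕ) : Type := Var m → ℝ

variable {m : ℕ}

/-- `δ_j`; we put `δ_j = 1` for `j ≥ 2m`. -/
def dl (p : Pt m) (j : ℕ) : ℝ := if h : j < 2 * m then p (.δ ⟨j, h⟩) else 1

/-- `w_j ∈ ℝ²`; we put `w_j = (u, 0)` for `j ≥ 2m`. -/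
def wv (p : Pt m) (j : ℕ) (c : Bool) : ℝ :=
  if h : j < 2 * m then p (.w ⟨j, h⟩ c) else (if c then 0 else p .u)

/-- The block of variables number `j`. -/
noncomputable def Y (p : Pt m) (j : ℕ) : ℝ × ℝ := (wv p j false / dl p j, wv p j true / dl p j)

/-- The conditions for the coordinates `u, w, δ, e`. -/
structure InX (p : Pt m) : Prop where
  d0 : ∀ j, 0 ≤ dl p j
  mono : ∀ j, dl p j ≤ dl p (j + 1)
  w0 : ∀ j c, 0 ≤ wv p j c
  w1 : ∀ j c, wv p j c ≤ dl p j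
  ev : ∀ l : Fin (2 * m + 3), p (.e l) = (1 / 2) ^ (2 ^ (l : ℕ))

/-- The small constants `b = 2^(-2^(2m+1))` and `η = b²`. -/
noncomputable def bb (m : ℕ) : ℝ := (1 / 2) ^ (2 ^ (2 * m + 1))
noncomputable def eta (m : ℕ) : ℝ := (1 / 2) ^ (2 ^ (2 * m + 2))

/-- The tent map. -/
noncomputable def tent (x : ℝ) : ℝ := 1 - |2 * x - 1|

/-- `(u', v')` is near to `(u, z)` or to `(z, v)`. -/
def Near (η : ℝ) (a b z : ℝ × ℝ) : Prop :=
  (|a.1 - b.1| ≤ η ∧ |a.2 - z.1| ≤ η) ∨ (|a.1 - z.1| ≤ η ∧ |a.2 - b.2| ≤ η)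

def NearS (η : ℝ) (a b z : ℝ × ℝ) : Prop :=
  (|a.1 - b.1| < η ∧ |a.2 - z.1| < η) ∨ (|a.1 - z.1| < η ∧ |a.2 - b.2| < η)

/-- The matrix of the quantified formula. -/
def Mat (p : Pt m) : Prop :=
  (∀ i < m, Near (eta m) (Y p (2 * i)) (Y p (2 * i + 2)) (Y p (2 * i + 1))) ∧
    bb m ≤ |(Y p 0).2 - tent (Y p 0).1|

/-- The scaled version of `Near`, without denominators: `a = w_i/d_i` etc. -/
def NearP (p : Pt m) (i : ℕ) : Prop :=
  (|wv p (2 * i) false * dl p (2 * i + 2) - wv p (2 * i + 2) false * dl p (2 * i)| ≤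
      eta m * (dl p (2 * i) * dl p (2 * i + 2)) ∧
    |wv p (2 * i) true * dl p (2 * i + 1) - wv p (2 * i + 1) false * dl p (2 * i)| ≤
      eta m * (dl p (2 * i) * dl p (2 * i + 1))) ∨
  (|wv p (2 * i) false * dl p (2 * i + 1) - wv p (2 * i + 1) false * dl p (2 * i)| ≤
      eta m * (dl p (2 * i) * dl p (2 * i + 1)) ∧
    |wv p (2 * i) true * dl p (2 * i + 2) - wv p (2 * i + 2) true * dl p (2 * i)| ≤
      eta m * (dl p (2 * i) * dl p (2 * i + 2)))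

/-- The scaled version of `Mat`. -/
def MatP (p : Pt m) : Prop :=
  (∀ i < m, NearP p i) ∧
    bb m * dl p 0 ≤ |wv p 0 true - (dl p 0 - |2 * wv p 0 false - dl p 0|)|

/-- All extra coordinates `r, t, s` vanish. -/
def Flat (p : Pt m) : Prop := p .r = 0 ∧ (∀ j, p (.t j) = 0) ∧ ∀ i, p (.s i) = 0

def SA (p : Pt m) : Prop := p .τ = 0 ∧ Flat p ∧ MatP p

def SB (p : Pt m) : Prop := dl p 0 = 0 ∧ 0 ≤ p .τ ∧ p .τ ≤ 1 ∧ Flat p

def SC (p : Pt m) : Prop :=
  ∃ j : Fin (2 * m), dl p j = 0 ∧ p .τ = 0 ∧ 0 ≤ p .r ∧ p .r ≤ 1 ∧ p (.t j) = p .r ∧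
    (∀ j' ≠ j, p (.t j') = 0) ∧ ∀ i, 0 ≤ p (.s i) ∧ p (.s i) ≤ p .r

/-- The compact semi-algebraic set which has no small triangulation. -/
def SS (m : ℕ) : Set (Pt m) := {p | InX p ∧ (SA p ∨ SB p ∨ SC p)}

/-- The stratum number `j`. -/
def Xs (m : ℕ) (j : ℕ) : Set (Pt m) :=
  {p | InX p ∧ p .τ = 0 ∧ Flat p ∧ (∀ i < j, dl p i = 0) ∧ 0 < dl p j}

/-- The sets defined by the formula with `j` blocks of quantifiers. -/
def FF (m : ℕ) : ℕ → Set (Pt m)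
  | 0 => {p | p ∈ Xs m 0 ∧ Mat p}
  | j + 1 => Xs m (j + 1) \ closure (FF m j)

end Pool.Agent.Lib.MP_e75782_lc
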