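import Pool.Agent.Lib.MP_e75782_lc.Game1

/-!
# The polynomials
-/

set_option autoImplicit false

namespace Pool.Agent.Lib.MP_e75782_lc

open MvPolynomial

variable {m : ℕ}

/-- The names of the polynomials. -/
inductive Pol (m : ℕ) : Type
  | u0 : Pol m
  | u1 : Pol m
  | d (j : Fin (2 * m)) : Pol m
  | dm (j : Fin (2 * m)) : Pol m
  | w0 (j : Fin (2 * m)) (c : Bool) : Pol m
  | w1 (j : Fin (2 * m)) (c : Bool) : Pol m
  | e0 : Pol m
  | es (l : Fin (2 * m + 2)) : Pol m
  | tau0 : Pol m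
  | tau1 : Pol m
  | t (j : Fin (2 * m)) : Pol m
  | tr (j : Fin (2 * m)) : Pol m
  | r0 : Pol m
  | r1 : Pol m
  | s0 (i : Fin (8 * m + 6)) : Pol m
  | s1 (i : Fin (8 * m + 6)) : Pol m
  | near (i : Fin m) (a : Fin 4) (b : Bool) : Pol m
  | tent (a : Fin 4) : Pol m
  deriving DecidableEq, Fintype

/-- A sum type with the same number of elements as `Pol m`. -/
private abbrev PolSum (m : ℕ) : Type :=
  Fin 7 ⊕ Fin (2 * m) ⊕ Fin (2 * m) ⊕ (Fin (2 * m) × Bool) ⊕ (Fin (2 * m) × Bool) ⊕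
    Fin (2 * m + 2) ⊕ Fin (2 * m) ⊕ Fin (2 * m) ⊕ Fin (8 * m + 6) ⊕ Fin (8 * m + 6) ⊕
      (Fin m × Fin 4 × Bool) ⊕ Fin 4

private def polTo : Pol m → PolSum m
  | .u0 => .inl 0
  | .u1 => .inl 1
  | .e0 => .inl 2
  | .tau0 => .inl 3
  | .tau1 => .inl 4
  | .r0 => .inl 5
  | .r1 => .inl 6
  | .d j => .inr (.inl j)
  | .dm j => .inr (.inr (.inl j))
  | .w0 j c => .inr (.inr (.inr (.inl (j, c))))
  | .w1 j c => .inr (.inr (.inr (.inr (.inl (j, c)))))
  | .es l => .inr (.inr (.inr (.inr (.inr (.inl l)))))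
  | .t j => .inr (.inr (.inr (.inr (.inr (.inr (.inl j))))))
  | .tr j => .inr (.inr (.inr (.inr (.inr (.inr (.inr (.inl j)))))))
  | .s0 i => .inr (.inr (.inr (.inr (.inr (.inr (.inr (.inr (.inl i))))))))
  | .s1 i => .inr (.inr (.inr (.inr (.inr (.inr (.inr (.inr (.inr (.inl i)))))))))
  | .near i a b => .inr (.inr (.inr (.inr (.inr (.inr (.inr (.inr (.inr (.inr (.inl (i, a, b)))))))))))
  | .tent a => .inr (.inr (.inr (.inr (.inr (.inr (.inr (.inr (.inr (.inr (.inr a))))))))))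

private def polInv : PolSum m → Pol m
  | .inl 0 => .u0
  | .inl 1 => .u1
  | .inl 2 => .e0
  | .inl 3 => .tau0
  | .inl 4 => .tau1
  | .inl 5 => .r0
  | .inl 6 => .r1
  | .inr (.inl j) => .d j
  | .inr (.inr (.inl j)) => .dm j
  | .inr (.inr (.inr (.inl (j, c)))) => .w0 j c
  | .inr (.inr (.inr (.inr (.inl (j, c))))) => .w1 j c
  | .inr (.inr (.inr (.inr (.inr (.inl l))))) => .es l
  | .inr (.inr (.inr (.inr (.inr (.inr (.inl j)))))) => .t j
  | .inr (.inr (.inr (.inr (.inr (.inr (.inr (.inl j))))))) => .tr j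
  | .inr (.inr (.inr (.inr (.inr (.inr (.inr (.inr (.inl i)))))))) => .s0 i
  | .inr (.inr (.inr (.inr (.inr (.inr (.inr (.inr (.inr (.inl i))))))))) => .s1 i
  | .inr (.inr (.inr (.inr (.inr (.inr (.inr (.inr (.inr (.inr (.inl (i, a, b))))))))))) => .near i a b
  | .inr (.inr (.inr (.inr (.inr (.inr (.inr (.inr (.inr (.inr (.inr a)))))))))) => .tent a

private def polEquiv : Pol m ≃ PolSum m where
  toFun := polTo
  invFun := polInv
  left_inv x := by cases x <;> rfl
  right_inv x := by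
    rcases x with x | x | x | ⟨x, c⟩ | ⟨x, c⟩ | x | x | x | x | x | ⟨x, a, b⟩ | x
    · fin_cases x <;> rfl
    all_goals rfl

theorem card_Pol : Fintype.card (Pol m) = 42 * m + 25 := by
  rw [Fintype.card_congr polEquiv]
  simp only [Fintype.card_sum, Fintype.card_prod, Fintype.card_fin, Fintype.card_bool]
  ring

/-- A sum type with the same number of elements as `Var m`. -/
private abbrev VarSum (m : ℕ) : Type :=
  Fin 3 ⊕ (Fin (2 * m) × Bool) ⊕ Fin (2 * m) ⊕ Fin (2 * m + 3) ⊕ Fin (2 * m) ⊕ Fin (8 * m + 6)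

private def varTo : Var m → VarSum m
  | .u => .inl 0
  | .τ => .inl 1
  | .r => .inl 2
  | .w j c => .inr (.inl (j, c))
  | .δ j => .inr (.inr (.inl j))
  | .e l => .inr (.inr (.inr (.inl l)))
  | .t j => .inr (.inr (.inr (.inr (.inl j))))
  | .s i => .inr (.inr (.inr (.inr (.inr i))))

private def varInv : VarSum m → Var m
  | .inl 0 => .u
  | .inl 1 => .τ
  | .inl 2 => .r
  | .inr (.inl (j, c)) => .w j c
  | .inr (.inr (.inl j)) => .δ j
  | .inr (.inr (.inr (.inl l))) => .e l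
  | .inr (.inr (.inr (.inr (.inl j)))) => .t j
  | .inr (.inr (.inr (.inr (.inr i)))) => .s i

private def varEquiv : Var m ≃ VarSum m where
  toFun := varTo
  invFun := varInv
  left_inv x := by cases x <;> rfl
  right_inv x := by
    rcases x with x | ⟨x, c⟩ | x | x | x | x
    · fin_cases x <;> rfl
    all_goals rfl

theorem card_Var : Fintype.card (Var m) = 18 * m + 12 := by
  rw [Fintype.card_congr varEquiv]
  simp only [Fintype.card_sum, Fintype.card_prod, Fintype.card_fin, Fintype.card_bool]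
  ring

/-- `δ_j` as a polynomial. -/
noncomputable def dlP (m j : ℕ) : MvPolynomial (Var m) ℤ :=
  if h : j < 2 * m then X (.δ ⟨j, h⟩) else 1

/-- `w_j` as a polynomial. -/
noncomputable def wvP (m j : ℕ) (c : Bool) : MvPolynomial (Var m) ℤ :=
  if h : j < 2 * m then X (.w ⟨j, h⟩ c) else (if c then 0 else X .u)

/-- `η` as a polynomial. -/
noncomputable def etaP (m : ℕ) : MvPolynomial (Var m) ℤ := X (.e ⟨2 * m + 2, by omega⟩)

/-- `b` as a polynomial. -/
noncomputable def bbP (m : ℕ) : MvPolynomial (Var m) ℤ := X (.e ⟨2 * m + 1, by omega⟩)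

/-- The polynomials. -/
noncomputable def PP (m : ℕ) : Pol m → MvPolynomial (Var m) ℤ
  | .u0 => X .u
  | .u1 => 1 - X .u
  | .d j => X (.δ j)
  | .dm j => dlP m ((j : ℕ) + 1) - dlP m (j : ℕ)
  | .w0 j c => X (.w j c)
  | .w1 j c => X (.δ j) - X (.w j c)
  | .e0 => 2 * X (.e ⟨0, by omega⟩) - 1
  | .es l => X (.e l.succ) - X (.e l.castSucc) ^ 2
  | .tau0 => X .τ
  | .tau1 => 1 - X .τ
  | .t j => X (.t j)
  | .tr j => X (.t j) - X .r
  | .r0 => X .r
  | .r1 => 1 - X .r
  | .s0 i => X (.s i)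
  | .s1 i => X .r - X (.s i)
  | .near i a b =>
      let D0 := dlP m (2 * i)
      let D1 := dlP m (2 * i + 1)
      let D2 := dlP m (2 * i + 2)
      let L := if a = 0 then wvP m (2 * i) false * D2 - wvP m (2 * i + 2) false * D0
        else if a = 1 then wvP m (2 * i) true * D1 - wvP m (2 * i + 1) false * D0
        else if a = 2 then wvP m (2 * i) false * D1 - wvP m (2 * i + 1) false * D0
        else wvP m (2 * i) true * D2 - wvP m (2 * i + 2) true * D0
      let R := if a = 0 ∨ a = 3 then etaP m * (D0 * D2) else etaP m * (D0 * D1)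
      if b then R - L else R + L
  | .tent a =>
      if a = 0 then wvP m 0 true + 2 * wvP m 0 false - 2 * dlP m 0 - bbP m * dlP m 0
      else if a = 1 then wvP m 0 true - 2 * wvP m 0 false - bbP m * dlP m 0
      else if a = 2 then wvP m 0 true + 2 * wvP m 0 false - 2 * dlP m 0 + bbP m * dlP m 0
      else wvP m 0 true - 2 * wvP m 0 false + bbP m * dlP m 0

/-- zero or a monomial of degree at most `d` -/
private def Mo (d : ℕ) (p : MvPolynomial (Var m) ℤ) : Prop :=
  p = 0 ∨ ∃ μ : Var m →₀ ℕ, μ.degree ≤ d ∧ p = monomial μ 1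

private theorem Mo.X (v : Var m) : Mo 1 (X v : MvPolynomial (Var m) ℤ) :=
  Or.inr ⟨Finsupp.single v 1, by simp, rfl⟩

private theorem Mo.one : Mo 1 (1 : MvPolynomial (Var m) ℤ) :=
  Or.inr ⟨0, by simp, rfl⟩

private theorem Mo.zero {d : ℕ} : Mo d (0 : MvPolynomial (Var m) ℤ) := Or.inl rfl

private theorem Mo.mul {d d' : ℕ} {p q : MvPolynomial (Var m) ℤ} (hp : Mo d p) (hq : Mo d' q) :
    Mo (d + d') (p * q) := by
  rcases hp with rfl | ⟨μ, h1, rfl⟩
  · exact Or.inl (zero_mul _)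
  rcases hq with rfl | ⟨ν, h2, rfl⟩
  · exact Or.inl (mul_zero _)
  refine Or.inr ⟨μ + ν, ?_, ?_⟩
  · rw [map_add]; exact add_le_add h1 h2
  · rw [monomial_mul, one_mul]

/-- degree at most `d` and coefficients at most `c` -/
private def Sz (c : ℤ) (d : ℕ) (p : MvPolynomial (Var m) ℤ) : Prop :=
  p.totalDegree ≤ d ∧ ∀ μ, |p.coeff μ| ≤ c

private theorem Mo.sz {d : ℕ} {p : MvPolynomial (Var m) ℤ} (hp : Mo d p) (hd : d ≤ 3) :
    Sz 1 3 p := by
  rcases hp with rfl | ⟨μ, h1, rfl⟩
  · exact ⟨by simp, fun μ => by simp⟩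
  · refine ⟨?_, fun ν => ?_⟩
    · rw [totalDegree_monomial _ one_ne_zero]
      exact le_trans h1 hd
    · rw [coeff_monomial]
      split_ifs <;> simp

private theorem Sz.add {c c' : ℤ} {d : ℕ} {p q : MvPolynomial (Var m) ℤ} (hp : Sz c d p)
    (hq : Sz c' d q) : Sz (c + c') d (p + q) := by
  refine ⟨(totalDegree_add p q).trans (max_le hp.1 hq.1), fun μ => ?_⟩
  rw [coeff_add]
  exact (abs_add_le _ _).trans (add_le_add (hp.2 μ) (hq.2 μ))

private theorem Sz.sub {c c' : ℤ} {d : ℕ} {p q : MvPolynomial (Var m) ℤ} (hp : Sz c d p)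
    (hq : Sz c' d q) : Sz (c + c') d (p - q) := by
  refine ⟨(totalDegree_sub p q).trans (max_le hp.1 hq.1), fun μ => ?_⟩
  rw [coeff_sub]
  exact (abs_sub _ _).trans (add_le_add (hp.2 μ) (hq.2 μ))

private theorem Sz.two {c : ℤ} {d : ℕ} {p : MvPolynomial (Var m) ℤ} (hp : Sz c d p) :
    Sz (c + c) d (2 * p) := by
  rw [two_mul]; exact hp.add hp

private theorem Sz.mono {c c' : ℤ} {d : ℕ} {p : MvPolynomial (Var m) ℤ} (hp : Sz c d p)
    (h : c ≤ c') : Sz c' d p := ⟨hp.1, fun μ => (hp.2 μ).trans h⟩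

private theorem mo_dlP (j : ℕ) : Mo 1 (dlP m j) := by
  unfold dlP
  split_ifs
  · exact Mo.X _
  · exact Mo.one

private theorem mo_wvP (j : ℕ) (c : Bool) : Mo 1 (wvP m j c) := by
  unfold wvP
  split_ifs
  · exact Mo.X _
  · exact Mo.zero
  · exact Mo.X _

private theorem PP_sz (i : Pol m) : Sz 6 3 (PP m i) := by
  have sX : ∀ v : Var m, Sz 1 3 (X v : MvPolynomial (Var m) ℤ) := fun v => (Mo.X v).sz (by norm_num)
  have s1 : Sz 1 3 (1 : MvPolynomial (Var m) ℤ) := Mo.one.sz (by norm_num)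
  have sd : ∀ j, Sz 1 3 (dlP m j) := fun j => (mo_dlP j).sz (by norm_num)
  have sw : ∀ j c, Sz 1 3 (wvP m j c) := fun j c => (mo_wvP j c).sz (by norm_num)
  have swd : ∀ j c j', Sz 1 3 (wvP m j c * dlP m j') := fun j c j' =>
    ((mo_wvP j c).mul (mo_dlP j')).sz (by norm_num)
  have sed : ∀ j j', Sz 1 3 (etaP m * (dlP m j * dlP m j')) := fun j j' =>
    ((Mo.X _).mul ((mo_dlP j).mul (mo_dlP j'))).sz (by norm_num)
  have sbd : ∀ j, Sz 1 3 (bbP m * dlP m j) := fun j =>
    ((Mo.X _).mul (mo_dlP j)).sz (by norm_num)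
  cases i with
  | u0 => exact (sX _).mono (by norm_num)
  | u1 => exact (s1.sub (sX _)).mono (by norm_num)
  | d j => exact (sX _).mono (by norm_num)
  | dm j => exact ((sd _).sub (sd _)).mono (by norm_num)
  | w0 j c => exact (sX _).mono (by norm_num)
  | w1 j c => exact ((sX _).sub (sX _)).mono (by norm_num)
  | e0 => exact ((sX _).two.sub s1).mono (by norm_num)
  | es l =>
    have h : Sz 1 3 (X (.e l.castSucc) ^ 2 : MvPolynomial (Var m) ℤ) := by
      rw [pow_two]; exact ((Mo.X _).mul (Mo.X _)).sz (by norm_num)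
    exact ((sX _).sub h).mono (by norm_num)
  | tau0 => exact (sX _).mono (by norm_num)
  | tau1 => exact (s1.sub (sX _)).mono (by norm_num)
  | t j => exact (sX _).mono (by norm_num)
  | tr j => exact ((sX _).sub (sX _)).mono (by norm_num)
  | r0 => exact (sX _).mono (by norm_num)
  | r1 => exact (s1.sub (sX _)).mono (by norm_num)
  | s0 j => exact (sX _).mono (by norm_num)
  | s1 j => exact ((sX _).sub (sX _)).mono (by norm_num)
  | near i a b =>
    have hL : ∀ {L : MvPolynomial (Var m) ℤ}, Sz 2 3 L → ∀ {R : MvPolynomial (Var m) ℤ},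
        Sz 1 3 R → Sz 6 3 (if b then R - L else R + L) := by
      intro L hL R hR
      split_ifs
      · exact (hR.sub hL).mono (by norm_num)
      · exact (hR.add hL).mono (by norm_num)
    refine hL ?_ ?_
    · split_ifs
      · exact ((swd _ _ _).sub (swd _ _ _)).mono (by norm_num)
      · exact ((swd _ _ _).sub (swd _ _ _)).mono (by norm_num)
      · exact ((swd _ _ _).sub (swd _ _ _)).mono (by norm_num)
      · exact ((swd _ _ _).sub (swd _ _ _)).mono (by norm_num)
    · split_ifs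
      · exact sed _ _
      · exact sed _ _
  | tent a =>
    unfold PP
    dsimp only
    split_ifs
    · exact ((((sw _ _).add (sw _ _).two).sub (sd _).two).sub (sbd _)).mono (by norm_num)
    · exact (((sw _ _).sub (sw _ _).two).sub (sbd _)).mono (by norm_num)
    · exact ((((sw _ _).add (sw _ _).two).sub (sd _).two).add (sbd _)).mono (by norm_num)
    · exact (((sw _ _).sub (sw _ _).two).add (sbd _)).mono (by norm_num)

theorem PP_degree (i : Pol m) : (PP m i).totalDegree ≤ 3 := (PP_sz i).1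

theorem PP_coeff (i : Pol m) (μ : Var m →₀ ℕ) : |(PP m i).coeff μ| ≤ 6 := (PP_sz i).2 μ

/-- The conditions on the signs. -/
private structure CX {R : Type} [Zero R] [LE R] (v : Pol m → R) : Prop where
  u0 : 0 ≤ v .u0
  u1 : 0 ≤ v .u1
  d : ∀ j, 0 ≤ v (.d j)
  dm : ∀ j, 0 ≤ v (.dm j)
  w0 : ∀ j c, 0 ≤ v (.w0 j c)
  w1 : ∀ j c, 0 ≤ v (.w1 j c)
  e0 : v .e0 = 0
  es : ∀ l, v (.es l) = 0

private def CFlat {R : Type} [Zero R] (v : Pol m → R) : Prop :=
  v .r0 = 0 ∧ (∀ j, v (.t j) = 0) ∧ ∀ i, v (.s0 i) = 0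

private def CNear {R : Type} [Zero R] [LE R] (v : Pol m → R) (i : Fin m) : Prop :=
  ((0 ≤ v (.near i 0 true) ∧ 0 ≤ v (.near i 0 false)) ∧
    (0 ≤ v (.near i 1 true) ∧ 0 ≤ v (.near i 1 false))) ∨
  ((0 ≤ v (.near i 2 true) ∧ 0 ≤ v (.near i 2 false)) ∧
    (0 ≤ v (.near i 3 true) ∧ 0 ≤ v (.near i 3 false)))

private def CTent {R : Type} [Zero R] [LE R] (v : Pol m → R) : Prop :=
  (0 ≤ v (.tent 0) ∨ 0 ≤ v (.tent 1)) ∨ (v (.tent 2) ≤ 0 ∧ v (.tent 3) ≤ 0)

private def CA {R : Type} [Zero R] [LE R] (v : Pol m → R) : Prop :=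
  v .tau0 = 0 ∧ CFlat v ∧ (∀ i, CNear v i) ∧ CTent v

private def CB {R : Type} [Zero R] [LE R] (hm : 0 < m) (v : Pol m → R) : Prop :=
  v (.d ⟨0, by omega⟩) = 0 ∧ 0 ≤ v .tau0 ∧ 0 ≤ v .tau1 ∧ CFlat v

private def CC {R : Type} [Zero R] [LE R] (v : Pol m → R) : Prop :=
  ∃ j, v (.d j) = 0 ∧ v .tau0 = 0 ∧ 0 ≤ v .r0 ∧ 0 ≤ v .r1 ∧ v (.tr j) = 0 ∧
    (∀ j' ≠ j, v (.t j') = 0) ∧ ∀ i, 0 ≤ v (.s0 i) ∧ 0 ≤ v (.s1 i)

private def Cnd {R : Type} [Zero R] [LE R] (hm : 0 < m) (v : Pol m → R) : Prop :=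
  CX v ∧ (CA v ∨ CB hm v ∨ CC v)

private theorem cnd_sign (hm : 0 < m) (v : Pol m → ℝ) :
    Cnd hm (fun i => SignType.sign (v i)) ↔ Cnd hm v := by
  have h1 : CX (fun i => SignType.sign (v i)) ↔ CX v := by
    constructor
    · rintro ⟨a, b, c, d, e, f, g, h⟩
      simp only [sign_nonneg_iff, sign_eq_zero_iff] at a b c d e f g h
      exact ⟨a, b, c, d, e, f, g, h⟩
    · rintro ⟨a, b, c, d, e, f, g, h⟩
      constructor <;> simp only [sign_nonneg_iff, sign_eq_zero_iff] <;> assumption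
  unfold Cnd
  rw [h1]
  simp only [CA, CB, CC, CFlat, CNear, CTent, sign_nonneg_iff, sign_nonpos_iff, sign_eq_zero_iff]

private theorem aeval_dlP (x : Pt m) (j : ℕ) : aeval x (dlP m j) = dl x j := by
  unfold dlP dl
  split_ifs
  · rw [aeval_X]
  · rw [map_one]

private theorem aeval_wvP (x : Pt m) (j : ℕ) (c : Bool) : aeval x (wvP m j c) = wv x j c := by
  unfold wvP wv
  split_ifs
  · rw [aeval_X]
  · rw [map_zero]
  · rw [aeval_X]

private theorem inX_iff (x : Pt m) : CX (fun i => aeval x (PP m i)) ↔ InX x := by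
  constructor
  · rintro ⟨u0, u1, hd, hdm, w0, w1, e0, es⟩
    simp only [PP, map_sub, map_mul, map_pow, map_one, aeval_X, aeval_dlP, sub_nonneg,
      map_ofNat] at u0 u1 hd hdm w0 w1 e0 es
    refine ⟨fun j => ?_, fun j => ?_, fun j c => ?_, fun j c => ?_, ?_⟩
    · unfold dl
      split_ifs with h
      · exact hd _
      · exact zero_le_one
    · by_cases h : j < 2 * m
      · exact hdm ⟨j, h⟩
      · unfold dl
        rw [dif_neg h, dif_neg (by omega)]
    · unfold wv
      split_ifs with h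
      · exact w0 _ _
      · exact le_rfl
      · exact u0
    · unfold wv dl
      split_ifs with h
      · exact w1 _ _
      · exact zero_le_one
      · exact u1
    · have key : ∀ n : ℕ, ∀ h : n < 2 * m + 3, x (.e ⟨n, h⟩) = (1 / 2) ^ (2 ^ n) := by
        intro n
        induction n with
        | zero =>
          intro h
          rw [pow_zero, pow_one]
          linear_combination (1 / 2 : ℝ) * e0
        | succ n ih =>
          intro h
          have h1 := es ⟨n, by omega⟩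
          have h2 := ih (by omega)
          have h3 : x (.e ⟨n + 1, h⟩) = x (.e ⟨n, by omega⟩) ^ 2 := by
            have h4 : (⟨n, by omega⟩ : Fin (2 * m + 2)).succ = (⟨n + 1, h⟩ : Fin (2 * m + 3)) := rfl
            have h5 : (⟨n, by omega⟩ : Fin (2 * m + 2)).castSucc =
                (⟨n, by omega⟩ : Fin (2 * m + 3)) := rfl
            rw [h4, h5] at h1
            linear_combination h1
          rw [h3, h2, ← pow_mul, pow_succ]
      intro l
      exact key l l.2
  · intro h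
    have hu : wv x (2 * m) false = x .u := by
      unfold wv; rw [dif_neg (lt_irrefl _)]; simp
    have hd1 : dl x (2 * m) = 1 := by
      unfold dl; rw [dif_neg (lt_irrefl _)]
    have hdj : ∀ j : Fin (2 * m), dl x j = x (.δ j) := fun j => by
      unfold dl; rw [dif_pos j.2]
    have hwj : ∀ (j : Fin (2 * m)) c, wv x j c = x (.w j c) := fun j c => by
      unfold wv; rw [dif_pos j.2]
    constructor
    · simp only [PP, aeval_X]
      rw [← hu]; exact h.w0 _ _
    · simp only [PP, map_sub, map_one, aeval_X, sub_nonneg]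
      rw [← hu, ← hd1]; exact h.w1 _ _
    · intro j
      simp only [PP, aeval_X]
      rw [← hdj]; exact h.d0 _
    · intro j
      simp only [PP, map_sub, aeval_dlP, sub_nonneg]
      exact h.mono _
    · intro j c
      simp only [PP, aeval_X]
      rw [← hwj]; exact h.w0 _ _
    · intro j c
      simp only [PP, map_sub, aeval_X, sub_nonneg]
      rw [← hwj, ← hdj]; exact h.w1 _ _
    · simp only [PP, map_sub, map_mul, map_one, aeval_X, map_ofNat, h.ev]
      norm_num
    · intro l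
      simp only [PP, map_sub, map_pow, aeval_X, h.ev]
      rw [Fin.val_succ, Fin.val_castSucc, ← pow_mul, pow_succ, sub_self]

private theorem abs_le_iff' (L R : ℝ) : |L| ≤ R ↔ 0 ≤ R - L ∧ 0 ≤ R + L := by
  rw [abs_le]
  constructor
  · rintro ⟨h1, h2⟩; constructor <;> linarith
  · rintro ⟨h1, h2⟩; constructor <;> linarith

private theorem near_iff {x : Pt m} (hx : InX x) (i : Fin m) :
    CNear (fun i => aeval x (PP m i)) i ↔ NearP x i := by
  have he : x (.e ⟨2 * m + 2, by omega⟩) = eta m := hx.ev _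
  unfold CNear NearP
  simp only [abs_le_iff']
  have e2 : (2 : Fin 4) ≠ 0 := by decide
  have e3 : (3 : Fin 4) ≠ 0 := by decide
  have e21 : (2 : Fin 4) ≠ 1 := by decide
  have e31 : (3 : Fin 4) ≠ 1 := by decide
  have e32 : (3 : Fin 4) ≠ 2 := by decide
  have e10 : (1 : Fin 4) ≠ 0 := by decide
  have e13 : (1 : Fin 4) ≠ 3 := by decide
  have e23 : (2 : Fin 4) ≠ 3 := by decide
  simp only [PP, if_true, e2, e3, e21, e31, e32, e10, e13, e23, if_false, or_false, or_true,
    or_self, true_or, false_or, map_sub, map_add, map_mul, aeval_dlP, aeval_wvP, etaP, aeval_X, he,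
    Bool.false_eq_true]

private theorem tent_iff {x : Pt m} (hx : InX x) :
    CTent (fun i => aeval x (PP m i)) ↔
      bb m * dl x 0 ≤ |wv x 0 true - (dl x 0 - |2 * wv x 0 false - dl x 0|)| := by
  have he : x (.e ⟨2 * m + 1, by omega⟩) = bb m := hx.ev _
  unfold CTent
  have e2 : (2 : Fin 4) ≠ 0 := by decide
  have e3 : (3 : Fin 4) ≠ 0 := by decide
  have e21 : (2 : Fin 4) ≠ 1 := by decide
  have e31 : (3 : Fin 4) ≠ 1 := by decide
  have e32 : (3 : Fin 4) ≠ 2 := by decide
  have e10 : (1 : Fin 4) ≠ 0 := by decide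
  simp only [PP, if_true, e2, e3, e21, e31, e32, e10, if_false, map_sub, map_add, map_mul,
    aeval_dlP, aeval_wvP, bbP, aeval_X, he, map_ofNat]
  rw [le_abs]
  refine or_congr ?_ ?_
  · constructor
    · rintro (h | h)
      · have := le_abs_self (2 * wv x 0 false - dl x 0)
        linarith
      · have := neg_le_abs (2 * wv x 0 false - dl x 0)
        linarith
    · intro h
      rcases abs_cases (2 * wv x 0 false - dl x 0) with ⟨h1, -⟩ | ⟨h1, -⟩
      · left; rw [h1] at h; linarith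
      · right; rw [h1] at h; linarith
  · constructor
    · rintro ⟨h1, h2⟩
      rcases abs_cases (2 * wv x 0 false - dl x 0) with ⟨h3, -⟩ | ⟨h3, -⟩
      · rw [h3]; linarith
      · rw [h3]; linarith
    · intro h
      have h1 := le_abs_self (2 * wv x 0 false - dl x 0)
      have h2 := neg_le_abs (2 * wv x 0 false - dl x 0)
      constructor <;> linarith

private theorem flat_iff (x : Pt m) : CFlat (fun i => aeval x (PP m i)) ↔ Flat x := by
  simp only [CFlat, Flat, PP, aeval_X]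

private theorem a_iff {x : Pt m} (hx : InX x) : CA (fun i => aeval x (PP m i)) ↔ SA x := by
  unfold CA SA MatP
  rw [flat_iff, tent_iff hx]
  simp only [near_iff hx]
  refine and_congr (by simp only [PP, aeval_X]) (and_congr Iff.rfl (and_congr ?_ Iff.rfl))
  exact ⟨fun h i hi => h ⟨i, hi⟩, fun h i => h i i.2⟩

private theorem b_iff (hm : 0 < m) (x : Pt m) :
    CB hm (fun i => aeval x (PP m i)) ↔ SB x := by
  unfold CB SB
  rw [flat_iff]
  have h : dl x 0 = x (.δ ⟨0, by omega⟩) := by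
    unfold dl; rw [dif_pos (by omega)]
  rw [h]
  simp only [PP, aeval_X, map_sub, map_one, sub_nonneg]

private theorem c_iff (x : Pt m) : CC (fun i => aeval x (PP m i)) ↔ SC x := by
  have hdj : ∀ j : Fin (2 * m), dl x j = x (.δ j) := fun j => by
    unfold dl; rw [dif_pos j.2]
  unfold CC SC
  simp only [PP, aeval_X, map_sub, map_one, sub_nonneg, sub_eq_zero, hdj]

/-- Membership in our set only depends on the signs of the polynomials. -/
theorem SS_signs (hm : 0 < m) : ∃ B : (Pol m → SignType) → Prop,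
    SS m = {x | B fun i => SignType.sign (aeval x (PP m i))} := by
  refine ⟨Cnd hm, ?_⟩
  ext x
  rw [Set.mem_ofPred_eq, cnd_sign hm (fun i => aeval x (PP m i))]
  unfold Cnd
  rw [inX_iff, b_iff hm, c_iff]
  change (InX x ∧ (SA x ∨ SB x ∨ SC x)) ↔ _
  refine and_congr_right fun hx => ?_
  rw [a_iff hx]

end Pool.Agent.Lib.MP_e75782_lc
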