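import Pool.Agent.Lib.MP_e75782_lc.Simp2

/-!
# A triangulation gives a cell decomposition
-/

set_option autoImplicit false

namespace Pool.Agent.Lib.MP_e75782_lc

section
variable {E : Type} [MetricSpace E] {S : Set E}

/-- The image of an open simplex. -/
def Simp3_cell (T : Triangulation S) (σ : Finset (Fin T.n → ℝ)) : Set E :=
  Subtype.val '' (T.Φ '' (Subtype.val ⁻¹' openSimplex σ))

theorem Simp3_mem_cell {T : Triangulation S} {σ : Finset (Fin T.n → ℝ)} {y : E} :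
    y ∈ Simp3_cell T σ ↔ ∃ x : (⋃ σ ∈ T.U, openSimplex σ : Set (Fin T.n → ℝ)),
      x.1 ∈ openSimplex σ ∧ (T.Φ x : E) = y := by
  unfold Simp3_cell
  constructor
  · rintro ⟨_, ⟨x, hx, rfl⟩, rfl⟩
    exact ⟨x, hx, rfl⟩
  · rintro ⟨x, hx, rfl⟩
    exact ⟨_, ⟨x, hx, rfl⟩, rfl⟩

theorem Simp3_subset (T : Triangulation S) {σ : Finset (Fin T.n → ℝ)} (hσ : σ ∈ T.U) :
    openSimplex σ ⊆ ⋃ σ ∈ T.U, openSimplex σ :=
  Set.subset_biUnion_of_mem (u := fun σ => openSimplex σ) hσ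

theorem Simp3_mem_closure {T : Triangulation S} {σ : Finset (Fin T.n → ℝ)} (hσ : σ ∈ T.U)
    (x : (⋃ σ ∈ T.U, openSimplex σ : Set (Fin T.n → ℝ))) :
    (T.Φ x : E) ∈ closure (Simp3_cell T σ) ↔ x.1 ∈ closure (openSimplex σ) := by
  have h1 : (Subtype.val '' (Subtype.val ⁻¹' openSimplex σ :
      Set (⋃ σ ∈ T.U, openSimplex σ : Set (Fin T.n → ℝ)))) = openSimplex σ := by
    rw [Subtype.image_preimage_coe]
    exact Set.inter_eq_right.2 (Simp3_subset T hσ)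
  unfold Simp3_cell
  rw [← closure_subtype, ← T.Φ.image_closure, T.Φ.injective.mem_set_image, closure_subtype, h1]

theorem Simp3_cover (T : Triangulation S) : ⋃ i : T.U, Simp3_cell T i.1 = S := by
  apply Set.Subset.antisymm
  · apply Set.iUnion_subset
    rintro i y hy
    obtain ⟨x, -, rfl⟩ := Simp3_mem_cell.1 hy
    exact (T.Φ x).2
  · intro y hy
    have hx := (T.Φ.symm ⟨y, hy⟩).2
    obtain ⟨σ, hσ, hx'⟩ := Set.mem_iUnion₂.1 hx
    refine Set.mem_iUnion.2 ⟨⟨σ, hσ⟩, Simp3_mem_cell.2 ⟨T.Φ.symm ⟨y, hy⟩, hx', ?_⟩⟩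
    simp

theorem Simp3_conn (T : Triangulation S) {σ : Finset (Fin T.n → ℝ)} (hσ : σ ∈ T.U) :
    IsPreconnected (Simp3_cell T σ) := by
  have : PreconnectedSpace (openSimplex σ) :=
    isPreconnected_iff_preconnectedSpace.1 (isPreconnected_openSimplex σ)
  have h : Simp3_cell T σ = Set.range (fun x : openSimplex σ =>
      (T.Φ ⟨x.1, Simp3_subset T hσ x.2⟩ : E)) := by
    ext y
    rw [Simp3_mem_cell]
    constructor
    · rintro ⟨x, hx, rfl⟩
      exact ⟨⟨x.1, hx⟩, rfl⟩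
    · rintro ⟨x, rfl⟩
      exact ⟨_, x.2, rfl⟩
  rw [h]
  apply isPreconnected_range
  exact continuous_subtype_val.comp
    (T.Φ.continuous.comp (Continuous.subtype_mk continuous_subtype_val _))

theorem Simp3_front (T : Triangulation S) {σ τ : Finset (Fin T.n → ℝ)} (hσ : σ ∈ T.U)
    (hτ : τ ∈ T.U) (h : (Simp3_cell T σ ∩ closure (Simp3_cell T τ)).Nonempty) :
    Simp3_cell T σ ⊆ closure (Simp3_cell T τ) := by
  obtain ⟨y, hy, hy'⟩ := h
  obtain ⟨x, hx, rfl⟩ := Simp3_mem_cell.1 hy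
  rw [Simp3_mem_closure hτ] at hy'
  have := openSimplex_front (T.subset hσ) (T.subset hτ) ⟨x.1, hx, hy'⟩
  intro z hz
  obtain ⟨x', hx', rfl⟩ := Simp3_mem_cell.1 hz
  rw [Simp3_mem_closure hτ]
  exact this hx'

theorem Simp3_homog (T : Triangulation S) (D : ℕ) {σ : Finset (Fin T.n → ℝ)} (hσ : σ ∈ T.U)
    {p q : E} (hp : p ∈ Simp3_cell T σ) (hq : q ∈ Simp3_cell T σ) (h : CubeAt S D p) :
    CubeAt S D q := by
  obtain ⟨a, ha, rfl⟩ := Simp3_mem_cell.1 hp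
  obtain ⟨b, hb, rfl⟩ := Simp3_mem_cell.1 hq
  obtain ⟨ε₁, hε₁, htr⟩ := exists_translation T.finite T.subset hσ ha hb
  intro ε hε
  obtain ⟨δ₂, hδ₂, hc2⟩ := Metric.continuous_iff.1 T.Φ.continuous b ε hε
  obtain ⟨δ₃, hδ₃, hc3⟩ := Metric.continuous_iff.1 T.Φ.symm.continuous (T.Φ a) (min ε₁ δ₂)
    (lt_min hε₁ hδ₂)
  obtain ⟨g₀, hg₀c, hg₀i, hg₀⟩ := h δ₃ hδ₃
  set x : (Fin D → Set.Icc (0 : ℝ) 1) → (⋃ σ ∈ T.U, openSimplex σ : Set (Fin T.n → ℝ)) :=
    fun t => T.Φ.symm ⟨g₀ t, (hg₀ t).1⟩ with hx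
  have hxc : Continuous x := T.Φ.symm.continuous.comp (hg₀c.subtype_mk _)
  have hxd : ∀ t, dist (x t) a < min ε₁ δ₂ := by
    intro t
    have := hc3 ⟨g₀ t, (hg₀ t).1⟩ (hg₀ t).2
    simpa [hx] using this
  have hmem : ∀ t, (x t : Fin T.n → ℝ) + (b.1 - a.1) ∈ ⋃ σ ∈ T.U, openSimplex σ := fun t =>
    htr _ (x t).2 (lt_of_lt_of_le (hxd t) (min_le_left _ _))
  refine ⟨fun t => (T.Φ ⟨(x t : Fin T.n → ℝ) + (b.1 - a.1), hmem t⟩ : E), ?_, ?_, ?_⟩
  · apply continuous_subtype_val.comp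
    apply T.Φ.continuous.comp
    apply Continuous.subtype_mk
    exact (continuous_subtype_val.comp hxc).add continuous_const
  · intro t t' htt
    have h1 := T.Φ.injective (Subtype.ext htt)
    have h2 : (x t : Fin T.n → ℝ) + (b.1 - a.1) = (x t' : Fin T.n → ℝ) + (b.1 - a.1) :=
      congrArg Subtype.val h1
    have h3 : x t = x t' := Subtype.ext (add_right_cancel h2)
    have h4 := T.Φ.symm.injective h3
    exact hg₀i (congrArg Subtype.val h4)
  · intro t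
    refine ⟨(T.Φ _).2, ?_⟩
    apply hc2
    have h1 : dist ((x t : Fin T.n → ℝ) + (b.1 - a.1)) b.1 = dist (x t : Fin T.n → ℝ) a.1 := by
      rw [dist_eq_norm, dist_eq_norm]
      congr 1
      abel
    calc dist (⟨(x t : Fin T.n → ℝ) + (b.1 - a.1), hmem t⟩ :
          (⋃ σ ∈ T.U, openSimplex σ : Set (Fin T.n → ℝ))) b
        = dist ((x t : Fin T.n → ℝ) + (b.1 - a.1)) b.1 := rfl
      _ = dist (x t : Fin T.n → ℝ) a.1 := h1
      _ < δ₂ := lt_of_lt_of_le (hxd t) (min_le_right _ _)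

end

/-- The open simplices of a triangulation of `S` form a cell decomposition. -/
theorem exists_cellDecomp {E : Type} [MetricSpace E] {S : Set E} (T : Triangulation S) :
    ∃ (ι : Type) (_ : Fintype ι) (_ : CellDecomp S ι), Fintype.card ι ≤ T.size := by
  have hfin : T.U.Finite := T.finite.subset T.subset
  let _ : Fintype T.U := hfin.fintype
  refine ⟨T.U, inferInstance, ⟨fun i => Simp3_cell T i.1, Simp3_cover T,
    fun i => Simp3_conn T i.2, fun i j h => Simp3_front T i.2 j.2 h,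
    fun D i p hp q hq h => Simp3_homog T D i.2 hp hq h⟩, ?_⟩
  rw [← Nat.card_eq_fintype_card, Nat.card_coe_set_eq]
  exact Set.ncard_le_ncard T.subset T.finite

end Pool.Agent.Lib.MP_e75782_lc
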