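import Pool.Agent.Lib.MP_e75782_lc.Count
import Pool.Agent.Lib.MP_e75782_lc.Poly
import Pool.Agent.Lib.MP_e75782_lc.Simp3

/-!
# The main theorem
-/

set_option autoImplicit false

namespace Pool.Agent.Lib.MP_e75782_lc

open MvPolynomial

/-! ### Every predicate of the signs is given by a formula -/

namespace Formula

variable {s : ℕ}

/-- A formula which is always true. -/
def tru (i : Fin s) : Formula s := .or (.atom i 1) (.neg (.atom i 1))

theorem holds_tru (i : Fin s) (ε : Fin s → SignType) : (tru i).Holds ε := by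
  show ε i = 1 ∨ ¬ ε i = 1
  exact em _

def allOf (i : Fin s) (L : List (Formula s)) : Formula s := L.foldr .and (tru i)

theorem holds_allOf (i : Fin s) (L : List (Formula s)) (ε : Fin s → SignType) :
    (allOf i L).Holds ε ↔ ∀ φ ∈ L, φ.Holds ε := by
  induction L with
  | nil => simp [allOf, holds_tru]
  | cons φ L ih =>
    show φ.Holds ε ∧ (allOf i L).Holds ε ↔ _
    rw [ih]
    simp

def anyOf (i : Fin s) (L : List (Formula s)) : Formula s := L.foldr .or (.neg (tru i))

theorem holds_anyOf (i : Fin s) (L : List (Formula s)) (ε : Fin s → SignType) :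
    (anyOf i L).Holds ε ↔ ∃ φ ∈ L, φ.Holds ε := by
  induction L with
  | nil =>
    show ¬ (tru i).Holds ε ↔ _
    simp [holds_tru]
  | cons φ L ih =>
    show φ.Holds ε ∨ (anyOf i L).Holds ε ↔ _
    rw [ih]
    simp

end Formula

theorem exists_formula {s : ℕ} (hs : 0 < s) (B : (Fin s → SignType) → Prop) :
    ∃ φ : Formula s, ∀ ε, φ.Holds ε ↔ B ε := by
  classical
  let i0 : Fin s := ⟨0, hs⟩
  refine ⟨Formula.anyOf i0 ((Finset.univ.filter B).toList.map fun ε0 =>
    Formula.allOf i0 ((List.finRange s).map fun i => Formula.atom i (ε0 i))), fun ε => ?_⟩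
  rw [Formula.holds_anyOf]
  constructor
  · rintro ⟨φ, hφ, h⟩
    obtain ⟨ε0, h0, rfl⟩ := List.mem_map.1 hφ
    rw [Formula.holds_allOf] at h
    have he : ε = ε0 := by
      funext i
      exact h (Formula.atom i (ε0 i)) (List.mem_map.2 ⟨i, List.mem_finRange i, rfl⟩)
    rw [Finset.mem_toList, Finset.mem_filter] at h0
    rw [he]
    exact h0.2
  · intro h
    refine ⟨_, List.mem_map.2 ⟨ε, ?_, rfl⟩, ?_⟩
    · rw [Finset.mem_toList, Finset.mem_filter]
      exact ⟨Finset.mem_univ _, h⟩
    · rw [Formula.holds_allOf]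
      intro φ hφ
      obtain ⟨i, _, rfl⟩ := List.mem_map.1 hφ
      rfl

/-! ### Renaming the coordinates -/

/-- The homeomorphism given by a renaming of the coordinates. -/
def renameHomeo {α β : Type} (e : α ≃ β) : (β → ℝ) ≃ₜ (α → ℝ) where
  toFun x := fun a => x (e a)
  invFun y := fun b => y (e.symm b)
  left_inv x := by funext b; simp
  right_inv y := by funext a; simp
  continuous_toFun := continuous_pi fun a => continuous_apply _
  continuous_invFun := continuous_pi fun b => continuous_apply _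

/-- Transport of a triangulation. -/
def Triangulation.trans {E F : Type} [TopologicalSpace E] [TopologicalSpace F] {S : Set E}
    {S' : Set F} (T : Triangulation S) (h : S ≃ₜ S') : Triangulation S' :=
  { n := T.n, K := T.K, finite := T.finite, U := T.U, subset := T.subset, Φ := T.Φ.trans h }

theorem Triangulation.size_trans {E F : Type} [TopologicalSpace E] [TopologicalSpace F]
    {S : Set E} {S' : Set F} (T : Triangulation S) (h : S ≃ₜ S') :
    (T.trans h).size = T.size := rfl

/-- The main theorem. -/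
theorem main {m : ℕ} (hm : 0 < m) :
    ∃ (P : Fin (42 * m + 25) → MvPolynomial (Fin (18 * m + 12)) ℝ) (φ : Formula (42 * m + 25)),
      (∀ i, (P i).totalDegree ≤ 3) ∧
      (∀ i μ, ∃ z : ℤ, |z| ≤ 6 ∧ (P i).coeff μ = z) ∧
      IsCompact (semialgSet P φ) ∧
      ∀ T : Triangulation (semialgSet P φ), 2 ^ (2 ^ m - 1) ≤ T.size := by
  obtain ⟨B, hB⟩ := SS_signs hm
  let e1 : Pol m ≃ Fin (42 * m + 25) := Fintype.equivFinOfCardEq card_Pol
  let e2 : Var m ≃ Fin (18 * m + 12) := Fintype.equivFinOfCardEq card_Var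
  let P : Fin (42 * m + 25) → MvPolynomial (Fin (18 * m + 12)) ℝ := fun i =>
    MvPolynomial.map (Int.castRingHom ℝ) (rename e2 (PP m (e1.symm i)))
  obtain ⟨φ, hφ⟩ := exists_formula (s := 42 * m + 25) (by omega)
    (fun ε => B fun i => ε (e1 i))
  have hev : ∀ (x : Fin (18 * m + 12) → ℝ) (i : Pol m),
      eval x (P (e1 i)) = aeval (fun v => x (e2 v)) (PP m i) := by
    intro x i
    show eval x (MvPolynomial.map (Int.castRingHom ℝ) (rename e2 (PP m (e1.symm (e1 i))))) = _
    rw [e1.symm_apply_apply, eval_map, eval₂_rename]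
    rfl
  have hset : semialgSet P φ = renameHomeo e2 ⁻¹' SS m := by
    ext x
    rw [hB]
    show φ.Holds (fun i => SignType.sign (eval x (P i))) ↔ B fun i =>
      SignType.sign (aeval (fun v => x (e2 v)) (PP m i))
    rw [hφ]
    simp only [hev]
  refine ⟨P, φ, fun i => ?_, fun i μ => ?_, ?_, fun T => ?_⟩
  · exact (Finset.sup_mono (support_map_subset _ _)).trans
      ((totalDegree_rename_le _ _).trans (PP_degree _))
  · refine ⟨(rename e2 (PP m (e1.symm i))).coeff μ, ?_, ?_⟩
    · have hμ : μ = Finsupp.mapDomain e2 (Finsupp.mapDomain e2.symm μ) := by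
        rw [← Finsupp.mapDomain_comp]
        simp
      rw [hμ, coeff_rename_mapDomain _ e2.injective]
      exact PP_coeff _ _
    · show (MvPolynomial.map (Int.castRingHom ℝ) (rename e2 (PP m (e1.symm i)))).coeff μ = _
      rw [coeff_map]
      rfl
  · rw [hset]
    exact (renameHomeo e2).isCompact_preimage.2 (isCompact_SS hm)
  · let h : (semialgSet P φ) ≃ₜ (SS m) := (renameHomeo e2).subtype fun x => by rw [hset]; rfl
    obtain ⟨ι, hι, C, hC⟩ := exists_cellDecomp (T.trans h)
    exact (card_cells hm C).trans (hC.trans_eq (T.size_trans h))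

/-- Doubly exponential beats singly exponential. -/
theorem exists_large (c : ℕ) : ∃ m, 0 < m ∧
    ((42 * m + 25) * 3 + 2) ^ ((18 * m + 12 + 2) ^ c) < 2 ^ (2 ^ m - 1) := by
  have h1 := tendsto_pow_const_div_const_pow_of_one_lt (c + 1) (one_lt_two : (1 : ℝ) < 2)
  have h2 : ∀ᶠ n : ℕ in Filter.atTop, (n : ℝ) ^ (c + 1) / 2 ^ n < 1 / (2 * 32 ^ (c + 1)) :=
    h1.eventually (gt_mem_nhds (by positivity))
  obtain ⟨m, hm0, hm⟩ := ((Filter.eventually_gt_atTop 0).and h2).exists
  refine ⟨m, hm0, ?_⟩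
  have h3 : 2 * (32 * m) ^ (c + 1) < 2 ^ m := by
    have h4 : (2 : ℝ) * (32 * m) ^ (c + 1) < 2 ^ m := by
      rw [div_lt_div_iff₀ (by positivity) (by positivity)] at hm
      rw [mul_pow]
      linarith
    exact_mod_cast h4
  have h5 : m < 2 ^ m := Nat.lt_two_pow_self
  have h6 : (42 * m + 25) * 3 + 2 ≤ 2 ^ (m + 7) := by
    rw [pow_add]
    norm_num
    omega
  calc ((42 * m + 25) * 3 + 2) ^ ((18 * m + 12 + 2) ^ c)
      ≤ (2 ^ (m + 7)) ^ ((18 * m + 12 + 2) ^ c) := Nat.pow_le_pow_left h6 _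
    _ = 2 ^ ((m + 7) * (18 * m + 12 + 2) ^ c) := by rw [← pow_mul]
    _ < 2 ^ (2 ^ m - 1) := by
        apply Nat.pow_lt_pow_right (by norm_num)
        have h7 : (m + 7) * (18 * m + 12 + 2) ^ c ≤ (32 * m) ^ (c + 1) := by
          rw [pow_succ, mul_comm]
          apply Nat.mul_le_mul (Nat.pow_le_pow_left (by omega) _) (by omega)
        have h8 : 1 ≤ (32 * m) ^ (c + 1) := Nat.one_le_pow _ _ (by omega)
        omega

end Pool.Agent.Lib.MP_e75782_lc
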