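import Pool.Agent.Lib.MP_e75782_lc.Defs

/-!
# The blocks of variables near a stratum
-/

set_option autoImplicit false

namespace Pool.Agent.Lib.MP_e75782_lc

variable {m : ℕ}

theorem continuous_dl (j : ℕ) : Continuous fun p : Pt m => dl p j := by
  unfold dl
  by_cases h : j < 2 * m
  · simp only [h, dite_true]
    exact continuous_apply _
  · simp only [h, dite_false]
    exact continuous_const

theorem continuous_wv (j : ℕ) (c : Bool) : Continuous fun p : Pt m => wv p j c := by
  unfold wv
  by_cases h : j < 2 * m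
  · simp only [h, dite_true]
    exact continuous_apply _
  · simp only [h, dite_false]
    cases c
    · simp only [Bool.false_eq_true, if_false]
      exact continuous_apply _
    · simp only [if_true]
      exact continuous_const

theorem InX.dl_mono {p : Pt m} (hp : InX p) {i j : ℕ} (h : i ≤ j) : dl p i ≤ dl p j :=
  monotone_nat_of_le_succ hp.mono h

theorem dl_pos {p : Pt m} {j i : ℕ} (hp : p ∈ Xs m j) (h : j ≤ i) : 0 < dl p i :=
  hp.2.2.2.2.trans_le (hp.1.dl_mono h)

theorem dl_top (p : Pt m) {j : ℕ} (h : 2 * m ≤ j) : dl p j = 1 := by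
  unfold dl
  rw [dif_neg (by omega)]

theorem Y_top (p : Pt m) : Y p (2 * m) = (p .u, 0) := by
  unfold Y
  rw [dl_top p le_rfl]
  unfold wv
  rw [dif_neg (by omega), dif_neg (by omega)]
  simp

theorem Y_mem1 {p : Pt m} (hp : InX p) (j : ℕ) : (Y p j).1 ∈ Set.Icc (0 : ℝ) 1 :=
  ⟨div_nonneg (hp.w0 j false) (hp.d0 j), div_le_one_of_le₀ (hp.w1 j false) (hp.d0 j)⟩

theorem Y_mem2 {p : Pt m} (hp : InX p) (j : ℕ) : (Y p j).2 ∈ Set.Icc (0 : ℝ) 1 :=
  ⟨div_nonneg (hp.w0 j true) (hp.d0 j), div_le_one_of_le₀ (hp.w1 j true) (hp.d0 j)⟩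

theorem continuousAt_Y {p : Pt m} {j i : ℕ} (hp : p ∈ Xs m j) (h : j ≤ i) :
    ContinuousAt (fun p : Pt m => Y p i) p := by
  have h0 : dl p i ≠ 0 := (dl_pos hp h).ne'
  unfold Y
  exact ((continuous_wv i false).continuousAt.div (continuous_dl i).continuousAt h0).prodMk
    ((continuous_wv i true).continuousAt.div (continuous_dl i).continuousAt h0)

/-- The point with the new block `j`. -/
private noncomputable def game1Q (p : Pt m) (j : Fin (2 * m)) (y : ℝ × ℝ) (ε : ℝ) : Pt m :=
  Function.update (Function.update (Function.update p (.δ j) ε) (.w j false) (ε * y.1))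
    (.w j true) (ε * y.2)

private theorem game1Q_continuous (p : Pt m) (j : Fin (2 * m)) (y : ℝ × ℝ) :
    Continuous (game1Q p j y) := by
  unfold game1Q
  have h0 : Continuous (fun _ : ℝ => p) := continuous_const
  have h1 : Continuous (fun ε : ℝ => ε) := continuous_id
  have h2 : Continuous (fun ε : ℝ => ε * y.1) := continuous_id.mul continuous_const
  have h3 : Continuous (fun ε : ℝ => ε * y.2) := continuous_id.mul continuous_const
  exact ((h0.update _ h1).update _ h2).update _ h3

private theorem game1Q_dl (p : Pt m) (j : Fin (2 * m)) (y : ℝ × ℝ) (ε : ℝ) (i : ℕ) :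
    dl (game1Q p j y ε) i = if i = (j : ℕ) then ε else dl p i := by
  unfold dl game1Q
  by_cases h : i < 2 * m
  · simp only [h, dite_true]
    rw [Function.update_of_ne (by simp), Function.update_of_ne (by simp)]
    by_cases hi : i = (j : ℕ)
    · rw [if_pos hi]
      have : (⟨i, h⟩ : Fin (2 * m)) = j := Fin.ext hi
      rw [this, Function.update_self]
    · rw [if_neg hi, Function.update_of_ne]
      intro he
      apply hi
      simp only [Var.δ.injEq] at he
      rw [← he]
  · simp only [h, dite_false]
    rw [if_neg]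
    intro hi
    exact h (hi ▸ j.2)

private theorem game1Q_wv (p : Pt m) (j : Fin (2 * m)) (y : ℝ × ℝ) (ε : ℝ) (i : ℕ) (c : Bool) :
    wv (game1Q p j y ε) i c =
      if i = (j : ℕ) then (if c then ε * y.2 else ε * y.1) else wv p i c := by
  unfold wv game1Q
  by_cases h : i < 2 * m
  · simp only [h, dite_true]
    by_cases hi : i = (j : ℕ)
    · rw [if_pos hi]
      have : (⟨i, h⟩ : Fin (2 * m)) = j := Fin.ext hi
      rw [this]
      cases c
      · rw [Function.update_of_ne (by simp), Function.update_self]
        simp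
      · rw [Function.update_self]
        simp
    · rw [if_neg hi, Function.update_of_ne, Function.update_of_ne, Function.update_of_ne (by simp)]
      · intro he
        apply hi
        simp only [Var.w.injEq] at he
        rw [← he.1]
      · intro he
        apply hi
        simp only [Var.w.injEq] at he
        rw [← he.1]
  · simp only [h, dite_false]
    have hi : i ≠ (j : ℕ) := by
      intro hi
      exact h (hi ▸ j.2)
    rw [if_neg hi, Function.update_of_ne (by simp), Function.update_of_ne (by simp),
      Function.update_of_ne (by simp)]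

/-- A point `p` of the stratum `j + 1` which is not in the closure of `F` : for every value `y` of the block
number `j`, there is a point of the stratum `j`, not in `F`, with the same blocks and this value. -/
theorem stepOut {j : ℕ} (hj : j < 2 * m) {p : Pt m} (hp : p ∈ Xs m (j + 1)) {F : Set (Pt m)}
    (hF : p ∉ closure F) {y : ℝ × ℝ} (h1 : y.1 ∈ Set.Icc (0 : ℝ) 1)
    (h2 : y.2 ∈ Set.Icc (0 : ℝ) 1) :
    ∃ p' ∈ Xs m j, p' ∉ F ∧ Y p' j = y ∧ ∀ i, j < i → Y p' i = Y p i := by
  obtain ⟨hX, hτ, hflat, hzero, hpos⟩ := hp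
  have hdj : dl p j = 0 := hzero j (Nat.lt_succ_self j)
  have hwj : ∀ c, wv p j c = 0 := fun c =>
    le_antisymm ((hX.w1 j c).trans hdj.le) (hX.w0 j c)
  let J : Fin (2 * m) := ⟨j, hj⟩
  have hq0 : game1Q p J y 0 = p := by
    unfold game1Q
    have e1 : p (.δ J) = 0 := by
      have := hdj
      unfold dl at this
      rwa [dif_pos hj] at this
    have e2 : ∀ c, p (.w J c) = 0 := by
      intro c
      have := hwj c
      unfold wv at this
      rwa [dif_pos hj] at this
    rw [zero_mul, zero_mul]
    conv_lhs => rw [← e1]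
    rw [Function.update_eq_self, e1]
    conv_lhs => rw [← e2 false]
    rw [Function.update_eq_self, e2 false]
    conv_lhs => rw [← e2 true]
    rw [Function.update_eq_self]
  -- a small parameter
  have hopen : IsOpen ((game1Q p J y) ⁻¹' (closure F)ᶜ) :=
    isClosed_closure.isOpen_compl.preimage (game1Q_continuous p J y)
  have hmem : (0 : ℝ) ∈ (game1Q p J y) ⁻¹' (closure F)ᶜ := by
    rw [Set.mem_preimage, hq0]
    exact hF
  obtain ⟨ρ, hρ, hball⟩ := Metric.isOpen_iff.mp hopen 0 hmem
  set ε : ℝ := min (ρ / 2) (dl p (j + 1)) with hε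
  have hε0 : 0 < ε := lt_min (by positivity) hpos
  have hε1 : ε ≤ dl p (j + 1) := min_le_right _ _
  have hερ : ε < ρ := (min_le_left _ _).trans_lt (by linarith)
  have hJ : ((J : Fin (2 * m)) : ℕ) = j := rfl
  have hdl : ∀ i, dl (game1Q p J y ε) i = if i = j then ε else dl p i := game1Q_dl p J y ε
  have hwv : ∀ i c, wv (game1Q p J y ε) i c =
    if i = j then (if c then ε * y.2 else ε * y.1) else wv p i c := game1Q_wv p J y ε
  have hother : ∀ v : Var m, (∀ i, v ≠ .δ i) → (∀ i c, v ≠ .w i c) →
      game1Q p J y ε v = p v := by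
    intro v hv1 hv2
    unfold game1Q
    rw [Function.update_of_ne (hv2 _ _), Function.update_of_ne (hv2 _ _),
      Function.update_of_ne (hv1 _)]
  refine ⟨game1Q p J y ε, ⟨⟨?_, ?_, ?_, ?_, ?_⟩, ?_, ?_, ?_, ?_⟩, ?_, ?_, ?_⟩
  · -- d0
    intro i
    rw [hdl]
    split_ifs
    · exact hε0.le
    · exact hX.d0 i
  · -- mono
    intro i
    rw [hdl, hdl]
    by_cases hi : i = j
    · rw [if_pos hi, if_neg (by omega), hi]
      exact hε1
    · rw [if_neg hi]
      by_cases hi1 : i + 1 = j
      · rw [if_pos hi1, hzero i (by omega)]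
        exact hε0.le
      · rw [if_neg hi1]
        exact hX.mono i
  · -- w0
    intro i c
    rw [hwv]
    split_ifs
    · exact mul_nonneg hε0.le h2.1
    · exact mul_nonneg hε0.le h1.1
    · exact hX.w0 i c
  · -- w1
    intro i c
    rw [hwv, hdl]
    split_ifs
    · exact mul_le_of_le_one_right hε0.le h2.2
    · exact mul_le_of_le_one_right hε0.le h1.2
    · exact hX.w1 i c
  · -- ev
    intro l
    rw [hother _ (by simp) (by simp)]
    exact hX.ev l
  · rw [hother _ (by simp) (by simp)]
    exact hτ
  · refine ⟨?_, ?_, ?_⟩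
    · rw [hother _ (by simp) (by simp)]
      exact hflat.1
    · intro i
      rw [hother _ (by simp) (by simp)]
      exact hflat.2.1 i
    · intro i
      rw [hother _ (by simp) (by simp)]
      exact hflat.2.2 i
  · intro i hi
    rw [hdl, if_neg (by omega)]
    exact hzero i (by omega)
  · rw [hdl, if_pos rfl]
    exact hε0
  · intro hmem'
    have : ε ∈ Metric.ball (0 : ℝ) ρ := by
      rw [Metric.mem_ball, Real.dist_eq, sub_zero, abs_of_pos hε0]
      exact hερ
    exact hball this (subset_closure hmem')
  · unfold Y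
    rw [hwv, hwv, hdl, if_pos rfl, if_pos rfl, if_pos rfl]
    simp only [Bool.false_eq_true, if_false, if_true]
    rw [mul_div_cancel_left₀ _ hε0.ne', mul_div_cancel_left₀ _ hε0.ne']
  · intro i hi
    unfold Y
    rw [hwv, hwv, hdl, if_neg (by omega), if_neg (by omega), if_neg (by omega)]

end Pool.Agent.Lib.MP_e75782_lc
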