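import Pool.Agent.Lib.MP_e75782_lc.Defs

/-!
# Open simplices
-/

set_option autoImplicit false

namespace Pool.Agent.Lib.MP_e75782_lc

variable {n : ℕ} {K : Geometry.SimplicialComplex ℝ (Fin n → ℝ)}

/-- Affine independence in terms of weights. -/
theorem simp1_indep {σ : Finset (Fin n → ℝ)}
    (h : AffineIndependent ℝ ((↑) : σ → (Fin n → ℝ))) {a : (Fin n → ℝ) → ℝ}
    (h0 : ∑ v ∈ σ, a v = 0) (h1 : ∑ v ∈ σ, a v • v = 0) : ∀ v ∈ σ, a v = 0 := by
  intro v hv
  rw [affineIndependent_iff] at h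
  have := h Finset.univ (fun v : σ => a v.1) (by
    rw [Finset.sum_coe_sort σ a]; exact h0) (by
    rw [Finset.sum_coe_sort σ (fun v => a v • v)]; exact h1) ⟨v, hv⟩ (Finset.mem_univ _)
  exact this

/-- If a point of the open simplex `σ` lies in the closed simplex `τ`, then `σ` is a face of `τ`. -/
theorem subset_of_mem {σ τ : Finset (Fin n → ℝ)} (hσ : σ ∈ K.faces) (hτ : τ ∈ K.faces)
    {p : Fin n → ℝ} (hp : p ∈ openSimplex σ) (hp' : p ∈ convexHull ℝ (τ : Set (Fin n → ℝ))) :
    σ ⊆ τ := by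
  classical
  obtain ⟨w, hw, hw1, hwp⟩ := hp
  have hpσ : p ∈ convexHull ℝ (σ : Set (Fin n → ℝ)) := by
    rw [Finset.mem_convexHull']
    exact ⟨w, fun v hv => (hw v hv).le, hw1, hwp⟩
  have h1 := K.inter_subset_convexHull hσ hτ ⟨hpσ, hp'⟩
  rw [← Finset.coe_inter, Finset.mem_convexHull'] at h1
  obtain ⟨w', hw', hw1', hwp'⟩ := h1
  have h2 : ∀ v ∈ σ, w v - (if v ∈ τ then w' v else 0) = 0 := by
    apply simp1_indep (K.indep hσ)
    · rw [Finset.sum_sub_distrib, hw1, ← Finset.sum_filter, Finset.filter_mem_eq_inter, hw1']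
      simp
    · simp only [sub_smul, ite_smul, zero_smul]
      rw [Finset.sum_sub_distrib, hwp, ← Finset.sum_filter, Finset.filter_mem_eq_inter, hwp']
      simp
  intro v hv
  by_contra hvτ
  have h3 := h2 v hv
  rw [if_neg hvτ, sub_zero] at h3
  exact (hw v hv).ne' h3

theorem openSimplex_subset_convexHull (σ : Finset (Fin n → ℝ)) :
    openSimplex σ ⊆ convexHull ℝ (σ : Set (Fin n → ℝ)) := by
  rintro p ⟨w, hw, hw1, hwp⟩
  rw [Finset.mem_convexHull']
  exact ⟨w, fun v hv => (hw v hv).le, hw1, hwp⟩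

/-- Open simplices are pairwise disjoint. -/
theorem eq_of_mem {σ τ : Finset (Fin n → ℝ)} (hσ : σ ∈ K.faces) (hτ : τ ∈ K.faces)
    {p : Fin n → ℝ} (hp : p ∈ openSimplex σ) (hp' : p ∈ openSimplex τ) : σ = τ :=
  Finset.Subset.antisymm (subset_of_mem hσ hτ hp (openSimplex_subset_convexHull _ hp'))
    (subset_of_mem hτ hσ hp' (openSimplex_subset_convexHull _ hp))

/-- The closure of an open simplex is the closed simplex. -/
theorem closure_openSimplex {σ : Finset (Fin n → ℝ)} (hσ : σ.Nonempty) :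
    closure (openSimplex σ) = convexHull ℝ (σ : Set (Fin n → ℝ)) := by
  apply Set.Subset.antisymm
  · exact closure_minimal (openSimplex_subset_convexHull σ)
      (σ.finite_toSet.isCompact_convexHull ℝ).isClosed
  · intro p hp
    rw [Finset.mem_convexHull'] at hp
    obtain ⟨a, ha, ha1, hap⟩ := hp
    have hc : (0 : ℝ) < σ.card := by exact_mod_cast hσ.card_pos
    set c : Fin n → ℝ := ∑ v ∈ σ, (1 / (σ.card : ℝ)) • v with hcdef
    have hlim : Filter.Tendsto (fun ε : ℝ => (1 - ε) • p + ε • c) (nhdsWithin 0 (Set.Ioi 0))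
        (nhds p) := by
      have h1 : Continuous fun ε : ℝ => (1 - ε) • p + ε • c := by fun_prop
      have h2 := h1.tendsto 0
      simp only [sub_zero, one_smul, zero_smul, add_zero] at h2
      exact h2.mono_left nhdsWithin_le_nhds
    refine mem_closure_of_tendsto hlim ?_
    have h01 : ∀ᶠ ε : ℝ in nhdsWithin 0 (Set.Ioi 0), ε ∈ Set.Ioo (0 : ℝ) 1 :=
      Ioo_mem_nhdsGT one_pos
    filter_upwards [h01] with ε hε
    refine ⟨fun v => (1 - ε) * a v + ε * (1 / (σ.card : ℝ)), fun v hv => ?_, ?_, ?_⟩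
    · have h1 : 0 ≤ (1 - ε) * a v := mul_nonneg (by linarith [hε.2]) (ha v hv)
      have h2 : 0 < ε * (1 / (σ.card : ℝ)) := mul_pos hε.1 (by positivity)
      linarith
    · rw [Finset.sum_add_distrib, ← Finset.mul_sum, ha1, Finset.sum_const, nsmul_eq_mul]
      field_simp
      ring
    · simp only [add_smul, mul_smul]
      rw [Finset.sum_add_distrib, ← Finset.smul_sum, hap, ← Finset.smul_sum]

theorem isPreconnected_openSimplex (σ : Finset (Fin n → ℝ)) :
    IsPreconnected (openSimplex σ) := by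
  apply Convex.isPreconnected
  rintro x ⟨w, hw, hw1, rfl⟩ y ⟨w', hw', hw1', rfl⟩ a b ha hb hab
  refine ⟨fun v => a * w v + b * w' v, fun v hv => ?_, ?_, ?_⟩
  · have h1 : 0 ≤ a * w v := mul_nonneg ha (hw v hv).le
    have h2 : 0 ≤ b * w' v := mul_nonneg hb (hw' v hv).le
    rcases ha.eq_or_lt with h | h
    · have hb1 : b = 1 := by linarith
      rw [← h, hb1]
      have := hw' v hv
      linarith
    · have := mul_pos h (hw v hv)
      show 0 < a * w v + b * w' v
      linarith
  · rw [Finset.sum_add_distrib, ← Finset.mul_sum, ← Finset.mul_sum, hw1, hw1']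
    linarith
  · simp only [add_smul, mul_smul]
    rw [Finset.sum_add_distrib, ← Finset.smul_sum, ← Finset.smul_sum]

/-- The condition of the frontier. -/
theorem openSimplex_front {σ τ : Finset (Fin n → ℝ)} (hσ : σ ∈ K.faces) (hτ : τ ∈ K.faces)
    (h : (openSimplex σ ∩ closure (openSimplex τ)).Nonempty) :
    openSimplex σ ⊆ closure (openSimplex τ) := by
  obtain ⟨p, hp, hp'⟩ := h
  rw [closure_openSimplex (K.nonempty_of_mem_faces hτ)] at hp' ⊢
  exact (openSimplex_subset_convexHull σ).trans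
    (convexHull_mono (by exact_mod_cast subset_of_mem hσ hτ hp hp'))

end Pool.Agent.Lib.MP_e75782_lc
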