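import Pool.Agent.Lib.MP_e75782_lc.Simp1

/-!
# Translations inside a simplicial complex
-/

set_option autoImplicit false

namespace Pool.Agent.Lib.MP_e75782_lc

variable {n : ℕ} {K : Geometry.SimplicialComplex ℝ (Fin n → ℝ)}

/-- The weights depend continuously on the point. -/
theorem simp2_antilip {τ : Finset (Fin n → ℝ)}
    (h : AffineIndependent ℝ ((↑) : τ → (Fin n → ℝ))) :
    ∃ C > (0 : ℝ), ∀ a b : (Fin n → ℝ) → ℝ, ∑ v ∈ τ, a v = ∑ v ∈ τ, b v →
      ∀ v ∈ τ, |a v - b v| ≤ C * dist (∑ v ∈ τ, a v • v) (∑ v ∈ τ, b v • v) := by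
  let L : (τ → ℝ) →ₗ[ℝ] (Fin n → ℝ) × ℝ :=
    { toFun := fun b => (∑ v : τ, b v • v.1, ∑ v : τ, b v)
      map_add' := fun a b => by
        simp [add_smul, Finset.sum_add_distrib]
      map_smul' := fun c b => by
        simp [mul_smul, Finset.smul_sum, Finset.mul_sum] }
  have hL : LinearMap.ker L = ⊥ := by
    rw [LinearMap.ker_eq_bot']
    intro b hb
    have h1 : ∑ v : τ, b v • v.1 = 0 := congrArg Prod.fst hb
    have h2 : ∑ v : τ, b v = 0 := congrArg Prod.snd hb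
    rw [affineIndependent_iff] at h
    funext v
    exact h Finset.univ b h2 h1 v (Finset.mem_univ _)
  obtain ⟨C, hC, hCL⟩ := L.exists_antilipschitzWith hL
  refine ⟨C, by exact_mod_cast hC, fun a b hab v hv => ?_⟩
  have h1 := hCL.le_mul_dist (fun v : τ => a v.1) (fun v : τ => b v.1)
  have h2 : |a v - b v| ≤ dist (fun v : τ => a v.1) (fun v : τ => b v.1) := by
    have := dist_le_pi_dist (fun v : τ => a v.1) (fun v : τ => b v.1) ⟨v, hv⟩
    rwa [Real.dist_eq] at this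
  refine h2.trans (h1.trans (le_of_eq ?_))
  congr 1
  show dist ((∑ v : τ, a v.1 • v.1, ∑ v : τ, a v.1) : (Fin n → ℝ) × ℝ)
    (∑ v : τ, b v.1 • v.1, ∑ v : τ, b v.1) = _
  rw [Finset.sum_coe_sort τ (fun v => a v • v), Finset.sum_coe_sort τ (fun v => b v • v),
    Finset.sum_coe_sort τ a, Finset.sum_coe_sort τ b, hab, Prod.dist_eq, dist_self,
    max_eq_left dist_nonneg]

/-- One simplex. -/
theorem simp2_one {σ τ : Finset (Fin n → ℝ)} (hσ : σ ∈ K.faces) (hτ : τ ∈ K.faces)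
    {p q : Fin n → ℝ} (hp : p ∈ openSimplex σ) (hq : q ∈ openSimplex σ) :
    ∃ ε > 0, ∀ x ∈ openSimplex τ, dist x p < ε → x + (q - p) ∈ openSimplex τ := by
  classical
  by_cases hpτ : p ∈ convexHull ℝ (τ : Set (Fin n → ℝ))
  · have hsub := subset_of_mem hσ hτ hp hpτ
    obtain ⟨C, hC, hCL⟩ := simp2_antilip (K.indep hτ)
    obtain ⟨wp, hwp, hwp1, rfl⟩ := hp
    obtain ⟨wq, hwq, hwq1, rfl⟩ := hq
    have hne := K.nonempty_of_mem_faces hσ
    obtain ⟨v0, hv0, hmin⟩ := σ.exists_min_image wq hne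
    refine ⟨wq v0 / C, div_pos (hwq v0 hv0) hC, ?_⟩
    rintro x ⟨a, ha, ha1, rfl⟩ hdist
    -- extension by zero
    have hext : ∀ w : (Fin n → ℝ) → ℝ, ∑ v ∈ τ, (if v ∈ σ then w v else 0) = ∑ v ∈ σ, w v := by
      intro w
      rw [← Finset.sum_filter, Finset.filter_mem_eq_inter, Finset.inter_eq_right.2 hsub]
    have hext2 : ∀ w : (Fin n → ℝ) → ℝ,
        ∑ v ∈ τ, (if v ∈ σ then w v else 0) • v = ∑ v ∈ σ, w v • v := by
      intro w
      simp only [ite_smul, zero_smul]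
      rw [← Finset.sum_filter, Finset.filter_mem_eq_inter, Finset.inter_eq_right.2 hsub]
    have key := hCL a (fun v => if v ∈ σ then wp v else 0) (by rw [ha1, hext, hwp1])
    rw [hext2] at key
    refine ⟨fun v => a v + ((if v ∈ σ then wq v else 0) - (if v ∈ σ then wp v else 0)),
      fun v hv => ?_, ?_, ?_⟩
    · by_cases hvσ : v ∈ σ
      · simp only [if_pos hvσ]
        have h1 := key v hv
        simp only [if_pos hvσ] at h1
        have h2 : C * dist (∑ v ∈ τ, a v • v) (∑ v ∈ σ, wp v • v) < wq v0 := by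
          rw [lt_div_iff₀ hC] at hdist
          linarith
        have h3 := hmin v hvσ
        have h4 := neg_abs_le (a v - wp v)
        linarith
      · simp only [if_neg hvσ]
        have := ha v hv
        linarith
    · rw [Finset.sum_add_distrib, Finset.sum_sub_distrib, hext, hext, ha1, hwq1, hwp1]
      ring
    · simp only [add_smul, sub_smul]
      rw [Finset.sum_add_distrib, Finset.sum_sub_distrib, hext2, hext2]
  · have hcl : IsClosed (convexHull ℝ (τ : Set (Fin n → ℝ))) :=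
      (τ.finite_toSet.isCompact_convexHull ℝ).isClosed
    obtain ⟨ε, hε, hball⟩ := Metric.isOpen_iff.1 hcl.isOpen_compl p hpτ
    refine ⟨ε, hε, fun x hx hd => ?_⟩
    exact absurd (openSimplex_subset_convexHull _ hx) (hball hd)

/-- If `p` and `q` are in the same open simplex, then the translation by `q - p` maps a neighbourhood of
`p` in the union of some open simplices of `K` into this union. -/
theorem exists_translation (hK : K.faces.Finite) {U : Set (Finset (Fin n → ℝ))}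
    (hU : U ⊆ K.faces) {σ : Finset (Fin n → ℝ)} (hσ : σ ∈ U) {p q : Fin n → ℝ}
    (hp : p ∈ openSimplex σ) (hq : q ∈ openSimplex σ) :
    ∃ ε > 0, ∀ x ∈ ⋃ τ ∈ U, openSimplex τ, dist x p < ε →
      x + (q - p) ∈ ⋃ τ ∈ U, openSimplex τ := by
  have h1 : ∀ τ : U, ∃ ε > 0, ∀ x ∈ openSimplex τ.1, dist x p < ε →
      x + (q - p) ∈ openSimplex τ.1 :=
    fun τ => simp2_one (hU hσ) (hU τ.2) hp hq
  choose ε hε h using h1
  have hfin : Finite U := (hK.subset hU).to_subtype
  haveI : Nonempty U := ⟨⟨σ, hσ⟩⟩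
  obtain ⟨τ0, hτ0⟩ := Finite.exists_min ε
  refine ⟨ε τ0, hε τ0, fun x hx hd => ?_⟩
  obtain ⟨τ, hτ, hxτ⟩ := Set.mem_iUnion₂.1 hx
  exact Set.mem_iUnion₂.2 ⟨τ, hτ, h ⟨τ, hτ⟩ x hxτ (hd.trans_le (hτ0 ⟨τ, hτ⟩))⟩

end Pool.Agent.Lib.MP_e75782_lc
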