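import Pool.Agent.Lib.MP_e75782_lc.StrataV
import Pool.Agent.Lib.MP_e75782_lc.Cells

/-!
# The strata are unions of cells
-/

set_option autoImplicit false

namespace Pool.Agent.Lib.MP_e75782_lc

variable {m : ℕ} {ι : Type}

/-- The set `δ_j = 0`, where all extra coordinates vanish. -/
def ZZ (m j : ℕ) : Set (Pt m) := {p | InX p ∧ p .τ = 0 ∧ Flat p ∧ dl p j = 0}

/-! ### Auxiliary lemmas -/

/-- The coordinates which do not occur in `InX`. -/
def strata_Extra : Var m → Prop
  | .τ => True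
  | .r => True
  | .t _ => True
  | .s _ => True
  | _ => False

theorem strata_Eτ : strata_Extra (.τ : Var m) := trivial

theorem strata_Er : strata_Extra (.r : Var m) := trivial

theorem strata_Et (j : Fin (2 * m)) : strata_Extra (.t j : Var m) := trivial

theorem strata_dl_update (p : Pt m) {v : Var m} (hv : strata_Extra v) (x : ℝ) (j : ℕ) :
    dl (Function.update p v x) j = dl p j := by
  unfold dl
  split
  · rw [Function.update_of_ne]
    rintro rfl
    exact hv
  · rfl

theorem strata_wv_update (p : Pt m) {v : Var m} (hv : strata_Extra v) (x : ℝ) (j : ℕ) (c : Bool) :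
    wv (Function.update p v x) j c = wv p j c := by
  unfold wv
  split
  · rw [Function.update_of_ne]
    rintro rfl
    exact hv
  · rw [Function.update_of_ne]
    rintro rfl
    exact hv

theorem strata_InX_update {p : Pt m} {v : Var m} (hv : strata_Extra v) (x : ℝ) (h : InX p) :
    InX (Function.update p v x) where
  d0 j := by rw [strata_dl_update p hv]; exact h.d0 j
  mono j := by rw [strata_dl_update p hv, strata_dl_update p hv]; exact h.mono j
  w0 j c := by rw [strata_wv_update p hv]; exact h.w0 j c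
  w1 j c := by rw [strata_dl_update p hv, strata_wv_update p hv]; exact h.w1 j c
  ev l := by
    rw [Function.update_of_ne]
    · exact h.ev l
    · rintro rfl
      exact hv

theorem strata_mono {p : Pt m} (h : InX p) : Monotone (dl p) :=
  monotone_nat_of_le_succ h.mono

theorem strata_zero_of_le {p : Pt m} (h : InX p) {i j : ℕ} (hij : i ≤ j) (hj : dl p j = 0) :
    dl p i = 0 :=
  le_antisymm (hj ▸ strata_mono h hij) (h.d0 i)

theorem strata_continuous_dl (j : ℕ) : Continuous fun p : Pt m => dl p j := by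
  unfold dl
  split
  · exact continuous_apply _
  · exact continuous_const

theorem strata_isClosed_Flat : IsClosed {p : Pt m | Flat p} := by
  have : {p : Pt m | Flat p} = {p : Pt m | p .r = 0} ∩ ((⋂ j, {p : Pt m | p (.t j) = 0}) ∩
      ⋂ i, {p : Pt m | p (.s i) = 0}) := by
    ext p
    simp [Flat]
  rw [this]
  refine (isClosed_eq (continuous_apply _) continuous_const).inter
    (IsClosed.inter (isClosed_iInter fun j => ?_) (isClosed_iInter fun i => ?_))
  · exact isClosed_eq (continuous_apply _) continuous_const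
  · exact isClosed_eq (continuous_apply _) continuous_const

/-- A flat point with `τ = 0` and `dl p j = 0` satisfies `SC`. -/
theorem strata_SC_of_flat {p : Pt m} (hτ : p .τ = 0) (hF : Flat p) (j : Fin (2 * m))
    (hj : dl p j = 0) : SC p := by
  obtain ⟨h1, h2, h3⟩ := hF
  refine ⟨j, hj, hτ, h1.ge, by rw [h1]; norm_num, by rw [h2, h1], fun j' _ => h2 j', fun i => ?_⟩
  rw [h3 i, h1]
  simp

theorem strata_tendsto_update (p : Pt m) (v : Var m) :
    Filter.Tendsto (fun x : ℝ => Function.update p v x) (nhds (p v)) (nhds p) := by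
  have h : Continuous fun x : ℝ => Function.update p v x :=
    continuous_const.update v continuous_id
  have := h.tendsto (p v)
  rwa [Function.update_eq_self] at this

/-- To be in the closure it is enough to be a limit as the parameter tends to `0` from the right. -/
theorem strata_mem_closure {F : Set (Pt m)} {f : ℝ → Pt m} {p : Pt m} (hf : Continuous f)
    (h0 : f 0 = p) (h : ∀ x, 0 < x → x ≤ 1 → f x ∈ F) : p ∈ closure F := by
  have h1 : Filter.Tendsto f (nhdsWithin 0 (Set.Ioi 0)) (nhds p) := by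
    rw [← h0]
    exact (hf.tendsto 0).mono_left nhdsWithin_le_nhds
  refine mem_closure_of_tendsto h1 ?_
  have h2 : ∀ᶠ x : ℝ in nhdsWithin 0 (Set.Ioi 0), x ∈ Set.Ioc (0 : ℝ) 1 :=
    Ioc_mem_nhdsGT (by norm_num)
  filter_upwards [h2] with x hx
  exact h x hx.1 hx.2

theorem isUnion_VV (hm : 0 < m) (C : CellDecomp (SS m) ι) : C.IsUnion (VV m) := by
  rw [← VV_eq hm]; exact CellDecomp.isUnion_cube _

theorem ZZ_zero_eq (hm : 0 < m) : ZZ m 0 = (SS m ∩ closure (SS m \ VV m)) ∩ VV m := by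
  apply Set.Subset.antisymm
  · rintro p ⟨hX, hτ, hF, h0⟩
    have hSC : SC p := strata_SC_of_flat hτ hF ⟨0, by omega⟩ h0
    refine ⟨⟨⟨hX, Or.inr (Or.inr hSC)⟩, ?_⟩, hX, hSC⟩
    refine strata_mem_closure (f := fun x => Function.update p .τ x)
      (continuous_const.update _ continuous_id) ?_ ?_
    · show Function.update p .τ 0 = p
      rw [← hτ, Function.update_eq_self]
    · intro x hx hx1
      refine ⟨⟨strata_InX_update strata_Eτ x hX, Or.inr (Or.inl ⟨?_, ?_, ?_, ?_⟩)⟩, ?_⟩
      · rw [strata_dl_update p strata_Eτ]; exact h0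
      · simpa using hx.le
      · simpa using hx1
      · exact ⟨by simpa using hF.1, fun j => by simpa using hF.2.1 j,
          fun i => by simpa using hF.2.2 i⟩
      · rintro ⟨-, j, -, h, -⟩
        simp at h
        exact hx.ne' h
  · rintro p ⟨⟨hS, hcl⟩, hX, j, hj, hτ, -⟩
    refine ⟨hX, hτ, ?_, strata_zero_of_le hX (Nat.zero_le _) hj⟩
    have hsub : SS m \ VV m ⊆ {p : Pt m | Flat p} := by
      rintro q ⟨⟨hqX, hq | hq | hq⟩, hqV⟩
      · exact hq.2.1
      · exact hq.2.2.2
      · exact absurd ⟨hqX, hq⟩ hqV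
    exact (closure_minimal hsub strata_isClosed_Flat) hcl

theorem isUnion_ZZ_zero (hm : 0 < m) [Finite ι] (C : CellDecomp (SS m) ι) :
    C.IsUnion (ZZ m 0) := by
  rw [ZZ_zero_eq hm]
  exact ((CellDecomp.isUnion_self.diff (isUnion_VV hm C)).closure).inter (isUnion_VV hm C)

/-- The points of `VV` outside `ZZ 0` have `r ≠ 0`. -/
theorem strata_VV_diff {p : Pt m} : p ∈ VV m \ ZZ m 0 ↔ p ∈ VV m ∧ p .r ≠ 0 := by
  constructor
  · rintro ⟨hV, hZ⟩
    refine ⟨hV, fun hr => hZ ?_⟩
    obtain ⟨hX, j, hj, hτ, -, -, htj, ht, hs⟩ := hV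
    refine ⟨hX, hτ, ⟨hr, ?_, ?_⟩, strata_zero_of_le hX (Nat.zero_le _) hj⟩
    · intro j'
      by_cases h : j' = j
      · rw [h, htj, hr]
      · exact ht j' h
    · intro i
      have := hs i
      rw [hr] at this
      exact le_antisymm this.2 this.1
  · rintro ⟨hV, hr⟩
    exact ⟨hV, fun hZ => hr hZ.2.2.1.1⟩

theorem isUnion_ZZ (hm : 0 < m) [Finite ι] (C : CellDecomp (SS m) ι) {j : ℕ} (hj : j < 2 * m) :
    C.IsUnion (ZZ m j) := by
  have h1 : C.IsUnion (VV m \ ZZ m 0) := (isUnion_VV hm C).diff (isUnion_ZZ_zero hm C)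
  have h2 : C.IsUnion ((VV m \ ZZ m 0) ∩ {p : Pt m | p (.t ⟨j, hj⟩) ≠ 0}) := by
    refine h1.clopen (O' := {p : Pt m | ∃ i, i ≠ (⟨j, hj⟩ : Fin (2 * m)) ∧ p (.t i) ≠ 0}) ?_ ?_ ?_ ?_
    · exact isOpen_ne_fun (continuous_apply _) continuous_const
    · have : {p : Pt m | ∃ i, i ≠ (⟨j, hj⟩ : Fin (2 * m)) ∧ p (.t i) ≠ 0} =
          ⋃ i, ⋃ _ : i ≠ (⟨j, hj⟩ : Fin (2 * m)), {p : Pt m | p (.t i) ≠ 0} := by
        ext p; simp
      rw [this]
      exact isOpen_iUnion fun i => isOpen_iUnion fun _ =>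
        isOpen_ne_fun (continuous_apply _) continuous_const
    · rintro p hp
      obtain ⟨⟨hX, j0, hj0, hτ, -, -, htj, ht, hs⟩, hr⟩ := strata_VV_diff.1 hp
      by_cases h : j0 = ⟨j, hj⟩
      · left
        subst h
        show p _ ≠ 0
        rw [htj]; exact hr
      · right
        exact ⟨j0, h, by rw [htj]; exact hr⟩
    · rintro p hp hO ⟨i, hi, hti⟩
      obtain ⟨⟨hX, j0, hj0, hτ, -, -, htj, ht, hs⟩, hr⟩ := strata_VV_diff.1 hp
      have e1 : i = j0 := by
        by_contra h
        exact hti (ht i h)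
      have e2 : (⟨j, hj⟩ : Fin (2 * m)) = j0 := by
        by_contra h
        exact hO (ht _ h)
      exact hi (e1.trans e2.symm)
  have h3 := (h2.closure).inter (isUnion_ZZ_zero hm C)
  convert h3 using 1
  apply Set.Subset.antisymm
  · rintro p ⟨hX, hτ, hF, h0⟩
    have hZ0 : p ∈ ZZ m 0 := ⟨hX, hτ, hF, strata_zero_of_le hX (Nat.zero_le _) h0⟩
    refine ⟨⟨⟨hX, Or.inr (Or.inr (strata_SC_of_flat hτ hF ⟨j, hj⟩ h0))⟩, ?_⟩, hZ0⟩
    have hc1 : Continuous fun x : ℝ => Function.update p .r x :=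
      continuous_const.update _ continuous_id
    have hc2 : Continuous fun x : ℝ => Function.update (Function.update p .r x) (.t ⟨j, hj⟩) x :=
      hc1.update _ continuous_id
    refine strata_mem_closure
      (f := fun x => Function.update (Function.update p .r x) (.t ⟨j, hj⟩) x) hc2 ?_ ?_
    · show Function.update (Function.update p .r 0) (.t ⟨j, hj⟩) 0 = p
      rw [← hF.1, Function.update_eq_self, hF.1, ← hF.2.1 ⟨j, hj⟩, Function.update_eq_self]
    · intro x hx hx1
      set q : Pt m := Function.update (Function.update p .r x) (.t ⟨j, hj⟩) x with hq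
      have hqr : q .r = x := by rw [hq]; simp
      have hqt : q (.t ⟨j, hj⟩) = x := by rw [hq]; simp
      have hqτ : q .τ = 0 := by rw [hq]; simpa using hτ
      have hqX : InX q := strata_InX_update (strata_Et _) _ (strata_InX_update strata_Er _ hX)
      have hqd : dl q j = 0 := by
        rw [hq, strata_dl_update _ (strata_Et _), strata_dl_update _ strata_Er]; exact h0
      have hqV : q ∈ VV m := by
        refine ⟨hqX, ⟨j, hj⟩, hqd, hqτ, by rw [hqr]; exact hx.le, by rw [hqr]; exact hx1,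
          by rw [hqr, hqt], ?_, ?_⟩
        · intro j' hj'
          rw [hq, Function.update_of_ne, Function.update_of_ne (by simp)]
          · exact hF.2.1 j'
          · simpa using hj'
        · intro i
          have : q (.s i) = 0 := by rw [hq]; simpa using hF.2.2 i
          rw [this, hqr]
          exact ⟨le_rfl, hx.le⟩
      refine ⟨strata_VV_diff.2 ⟨hqV, by rw [hqr]; exact hx.ne'⟩, ?_⟩
      show q (.t ⟨j, hj⟩) ≠ 0
      rw [hqt]; exact hx.ne'
  · rintro p ⟨⟨-, hcl⟩, hX, hτ, hF, -⟩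
    refine ⟨hX, hτ, hF, ?_⟩
    have hsub : (VV m \ ZZ m 0) ∩ {p : Pt m | p (.t ⟨j, hj⟩) ≠ 0} ⊆ {p : Pt m | dl p j = 0} := by
      rintro q ⟨⟨⟨hqX, j0, hj0, hτ, -, -, htj, ht, hs⟩, -⟩, hqt⟩
      have e2 : (⟨j, hj⟩ : Fin (2 * m)) = j0 := by
        by_contra h
        exact hqt (ht _ h)
      rw [← e2] at hj0
      exact hj0
    exact (closure_minimal hsub (isClosed_eq (strata_continuous_dl j) continuous_const)) hcl

theorem isUnion_Xs (hm : 0 < m) [Finite ι] (C : CellDecomp (SS m) ι) {j : ℕ} (h0 : 0 < j)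
    (hj : j ≤ 2 * m) : C.IsUnion (Xs m j) := by
  obtain ⟨k, rfl⟩ : ∃ k, j = k + 1 := ⟨j - 1, by omega⟩
  rcases hj.lt_or_eq with hj' | hj'
  · have h1 := (isUnion_ZZ hm C (j := k) (by omega)).diff (isUnion_ZZ hm C hj')
    convert h1 using 1
    ext p
    constructor
    · rintro ⟨hX, hτ, hF, hi, hp⟩
      exact ⟨⟨hX, hτ, hF, hi k (Nat.lt_succ_self k)⟩, fun h => hp.ne' h.2.2.2⟩
    · rintro ⟨⟨hX, hτ, hF, hk⟩, hn⟩
      refine ⟨hX, hτ, hF, fun i hi => strata_zero_of_le hX (by omega) hk, ?_⟩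
      exact lt_of_le_of_ne (hX.d0 _) fun h => hn ⟨hX, hτ, hF, h.symm⟩
  · have h1 := isUnion_ZZ hm C (j := k) (by omega)
    convert h1 using 1
    ext p
    constructor
    · rintro ⟨hX, hτ, hF, hi, hp⟩
      exact ⟨hX, hτ, hF, hi k (Nat.lt_succ_self k)⟩
    · rintro ⟨hX, hτ, hF, hk⟩
      refine ⟨hX, hτ, hF, fun i hi => strata_zero_of_le hX (by omega) hk, ?_⟩
      have : dl p (k + 1) = 1 := by
        unfold dl
        rw [dif_neg (by omega)]
      rw [this]; norm_num

theorem strata_div_le {a b x y η : ℝ} (hx : 0 < x) (hy : 0 < y) :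
    |a / x - b / y| ≤ η ↔ |a * y - b * x| ≤ η * (x * y) := by
  have hxy : 0 < x * y := mul_pos hx hy
  have h1 : a * y - b * x = (a / x - b / y) * (x * y) := by
    field_simp
  rw [h1, abs_mul, abs_of_pos hxy]
  exact ⟨fun h => mul_le_mul_of_nonneg_right h hxy.le, fun h => le_of_mul_le_mul_right h hxy⟩

theorem strata_Mat_iff {p : Pt m} (hp : ∀ i, 0 < dl p i) : Mat p ↔ MatP p := by
  unfold Mat MatP
  refine and_congr ?_ ?_
  · refine forall_congr' fun i => forall_congr' fun _ => ?_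
    unfold Near NearP Y
    simp only
    rw [strata_div_le (hp _) (hp _), strata_div_le (hp _) (hp _), strata_div_le (hp _) (hp _),
      strata_div_le (hp _) (hp _)]
  · unfold Y tent
    simp only
    have h0 := hp 0
    have h1 : wv p 0 true - (dl p 0 - |2 * wv p 0 false - dl p 0|) =
        (wv p 0 true / dl p 0 - (1 - |2 * (wv p 0 false / dl p 0) - 1|)) * dl p 0 := by
      have h2 : |2 * wv p 0 false - dl p 0| = |2 * (wv p 0 false / dl p 0) - 1| * dl p 0 := by
        have h3 : 2 * wv p 0 false - dl p 0 = (2 * (wv p 0 false / dl p 0) - 1) * dl p 0 := by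
          field_simp
        rw [h3, abs_mul, abs_of_pos h0]
      rw [h2]
      field_simp
    rw [h1, abs_mul, abs_of_pos h0]
    exact ⟨fun h => mul_le_mul_of_nonneg_right h h0.le, fun h => le_of_mul_le_mul_right h h0⟩

theorem isUnion_FF_zero (hm : 0 < m) [Finite ι] (C : CellDecomp (SS m) ι) :
    C.IsUnion (FF m 0) := by
  have h1 : C.IsUnion (SS m \ VV m) := CellDecomp.isUnion_self.diff (isUnion_VV hm C)
  have hSB : ∀ p : Pt m, p ∈ SS m \ VV m → dl p 0 = 0 → 0 < p .τ := by
    rintro p ⟨⟨hX, h⟩, hV⟩ h0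
    by_contra hcon
    have hV' : ¬ SC p := fun h => hV ⟨hX, h⟩
    rcases h with h | h | h
    · exact hV' (strata_SC_of_flat h.1 h.2.1 ⟨0, by omega⟩ h0)
    · have hτ : p .τ = 0 := le_antisymm (not_lt.1 hcon) h.2.1
      exact hV' (strata_SC_of_flat hτ h.2.2.2 ⟨0, by omega⟩ h0)
    · exact hV' h
  have hSA : ∀ p : Pt m, p ∈ SS m \ VV m → 0 < dl p 0 → SA p := by
    rintro p ⟨⟨hX, h⟩, hV⟩ h0
    rcases h with h | h | h
    · exact h
    · exact absurd h.1 h0.ne'
    · exact absurd ⟨hX, h⟩ hV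
  have h2 : C.IsUnion ((SS m \ VV m) ∩ {p : Pt m | 0 < dl p 0}) := by
    refine h1.clopen (O' := {p : Pt m | 0 < p .τ}) ?_ ?_ ?_ ?_
    · exact isOpen_lt continuous_const (strata_continuous_dl 0)
    · exact isOpen_lt continuous_const (continuous_apply _)
    · intro p hp
      rcases (hp.1.1.d0 0).eq_or_lt with h | h
      · exact Or.inr (hSB p hp h.symm)
      · exact Or.inl h
    · intro p hp hO hO'
      have := (hSA p hp hO).1
      exact (show 0 < p .τ from hO').ne' this
  convert h2 using 1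
  ext p
  constructor
  · rintro ⟨⟨hX, hτ, hF, -, h0⟩, hM⟩
    have hpos : ∀ i, 0 < dl p i := fun i => lt_of_lt_of_le h0 (strata_mono hX (Nat.zero_le i))
    refine ⟨⟨⟨hX, Or.inl ⟨hτ, hF, (strata_Mat_iff hpos).1 hM⟩⟩, ?_⟩, h0⟩
    rintro ⟨-, j, hj, -⟩
    exact (hpos j).ne' hj
  · rintro ⟨hp, h0⟩
    have hX := hp.1.1
    have h0' : 0 < dl p 0 := h0
    have hpos : ∀ i, 0 < dl p i := fun i => lt_of_lt_of_le h0' (strata_mono hX (Nat.zero_le i))
    obtain ⟨hτ, hF, hM⟩ := hSA p hp h0
    exact ⟨⟨hX, hτ, hF, fun i hi => absurd hi (Nat.not_lt_zero i), h0⟩, (strata_Mat_iff hpos).2 hM⟩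

theorem isUnion_FF (hm : 0 < m) [Finite ι] (C : CellDecomp (SS m) ι) {j : ℕ}
    (hj : j ≤ 2 * m) : C.IsUnion (FF m j) := by
  induction j with
  | zero => exact isUnion_FF_zero hm C
  | succ j ih =>
    have h1 := ih (by omega)
    have h2 := (isUnion_Xs hm C (Nat.succ_pos j) hj).diff h1.closure
    convert h2 using 1
    show Xs m (j + 1) \ closure (FF m j) = _
    ext p
    constructor
    · rintro ⟨hp, hn⟩
      exact ⟨hp, fun h => hn h.2⟩
    · rintro ⟨hp, hn⟩
      refine ⟨hp, fun h => hn ⟨?_, h⟩⟩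
      obtain ⟨hX, hτ, hF, hi, -⟩ := hp
      exact ⟨hX, Or.inr (Or.inl ⟨hi 0 (Nat.succ_pos j), hτ.ge, by rw [hτ]; norm_num, hF⟩)⟩

end Pool.Agent.Lib.MP_e75782_lc
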