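import Pool.Agent.Lib.MP_e75782_lc.Game1
import Pool.Agent.Lib.MP_e75782_lc.Cube

/-!
# Detecting the pieces of high dimension
-/

set_option autoImplicit false

namespace Pool.Agent.Lib.MP_e75782_lc

variable {m : ℕ}

/-- The pieces of high dimension. -/
def VV (m : ℕ) : Set (Pt m) := {p | InX p ∧ SC p}

theorem isClosed_InX : IsClosed {p : Pt m | InX p} := by
  have h : {p : Pt m | InX p} = {p | ∀ j, 0 ≤ dl p j} ∩ {p | ∀ j, dl p j ≤ dl p (j + 1)} ∩
      {p | ∀ j c, 0 ≤ wv p j c} ∩ {p | ∀ j c, wv p j c ≤ dl p j} ∩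
      {p | ∀ l : Fin (2 * m + 3), p (.e l) = (1 / 2) ^ (2 ^ (l : ℕ))} := by
    ext p
    constructor
    · intro h
      exact ⟨⟨⟨⟨h.d0, h.mono⟩, h.w0⟩, h.w1⟩, h.ev⟩
    · rintro ⟨⟨⟨⟨h1, h2⟩, h3⟩, h4⟩, h5⟩
      exact ⟨h1, h2, h3, h4, h5⟩
  rw [h]
  simp only [Set.ofPred_forall]
  refine (((IsClosed.inter ?_ ?_).inter ?_).inter ?_).inter ?_
  · exact isClosed_iInter fun j => isClosed_le continuous_const (continuous_dl j)
  · exact isClosed_iInter fun j => isClosed_le (continuous_dl j) (continuous_dl (j + 1))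
  · exact isClosed_iInter fun j => isClosed_iInter fun c =>
      isClosed_le continuous_const (continuous_wv j c)
  · exact isClosed_iInter fun j => isClosed_iInter fun c =>
      isClosed_le (continuous_wv j c) (continuous_dl j)
  · exact isClosed_iInter fun l => isClosed_eq (continuous_apply _) continuous_const

private theorem strataV_coord (v : Var m) : Continuous fun p : Pt m => p v := continuous_apply v

private theorem strataV_SC : IsClosed {p : Pt m | SC p} := by
  have h : {p : Pt m | SC p} = ⋃ j : Fin (2 * m), ({p | dl p j = 0} ∩ {p | p .τ = 0} ∩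
      {p | 0 ≤ p .r} ∩ {p | p .r ≤ 1} ∩ {p | p (.t j) = p .r} ∩
      {p | ∀ j', j' ≠ j → p (.t j') = 0} ∩ {p | ∀ i, 0 ≤ p (.s i)} ∩
      {p | ∀ i, p (.s i) ≤ p .r}) := by
    ext p
    simp only [SC, Set.mem_iUnion, Set.mem_inter_iff, Set.mem_ofPred_eq]
    constructor
    · rintro ⟨j, h1, h2, h3, h4, h5, h6, h7⟩
      exact ⟨j, ⟨⟨⟨⟨⟨⟨h1, h2⟩, h3⟩, h4⟩, h5⟩, h6⟩, fun i => (h7 i).1⟩, fun i => (h7 i).2⟩
    · rintro ⟨j, ⟨⟨⟨⟨⟨⟨h1, h2⟩, h3⟩, h4⟩, h5⟩, h6⟩, h7⟩, h8⟩
      exact ⟨j, h1, h2, h3, h4, h5, h6, fun i => ⟨h7 i, h8 i⟩⟩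
  rw [h]
  refine isClosed_iUnion_of_finite fun j => ?_
  simp only [Set.ofPred_forall]
  refine (((((((IsClosed.inter ?_ ?_).inter ?_).inter ?_).inter ?_).inter ?_).inter ?_).inter ?_)
  · exact isClosed_eq (continuous_dl _) continuous_const
  · exact isClosed_eq (strataV_coord _) continuous_const
  · exact isClosed_le continuous_const (strataV_coord _)
  · exact isClosed_le (strataV_coord _) continuous_const
  · exact isClosed_eq (strataV_coord _) (strataV_coord _)
  · exact isClosed_iInter fun j' => isClosed_iInter fun _ =>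
      isClosed_eq (strataV_coord _) continuous_const
  · exact isClosed_iInter fun i => isClosed_le continuous_const (strataV_coord _)
  · exact isClosed_iInter fun i => isClosed_le (strataV_coord _) (strataV_coord _)

theorem isClosed_VV : IsClosed (VV m) := isClosed_InX.inter strataV_SC

private theorem strataV_Flat : IsClosed {p : Pt m | Flat p} := by
  have h : {p : Pt m | Flat p} = {p | p .r = 0} ∩ {p | ∀ j, p (.t j) = 0} ∩
      {p | ∀ i, p (.s i) = 0} := by
    ext p
    simp only [Flat, Set.mem_inter_iff, Set.mem_ofPred_eq]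
    tauto
  rw [h]
  simp only [Set.ofPred_forall]
  refine (IsClosed.inter ?_ ?_).inter ?_
  · exact isClosed_eq (strataV_coord _) continuous_const
  · exact isClosed_iInter fun i => isClosed_eq (strataV_coord _) continuous_const
  · exact isClosed_iInter fun i => isClosed_eq (strataV_coord _) continuous_const

private theorem strataV_NearP (i : ℕ) : IsClosed {p : Pt m | NearP p i} := by
  have cd := fun j => continuous_dl (m := m) j
  have cw := fun j c => continuous_wv (m := m) j c
  unfold NearP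
  refine IsClosed.union (IsClosed.inter ?_ ?_) (IsClosed.inter ?_ ?_)
  · exact isClosed_le (((cw _ _).mul (cd _)).sub ((cw _ _).mul (cd _))).abs
      (continuous_const.mul ((cd _).mul (cd _)))
  · exact isClosed_le (((cw _ _).mul (cd _)).sub ((cw _ _).mul (cd _))).abs
      (continuous_const.mul ((cd _).mul (cd _)))
  · exact isClosed_le (((cw _ _).mul (cd _)).sub ((cw _ _).mul (cd _))).abs
      (continuous_const.mul ((cd _).mul (cd _)))
  · exact isClosed_le (((cw _ _).mul (cd _)).sub ((cw _ _).mul (cd _))).abs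
      (continuous_const.mul ((cd _).mul (cd _)))

private theorem strataV_MatP : IsClosed {p : Pt m | MatP p} := by
  have cd := fun j => continuous_dl (m := m) j
  have cw := fun j c => continuous_wv (m := m) j c
  have h : {p : Pt m | MatP p} = (⋂ i, ⋂ (_ : i < m), {p : Pt m | NearP p i}) ∩
      {p | bb m * dl p 0 ≤ |wv p 0 true - (dl p 0 - |2 * wv p 0 false - dl p 0|)|} := by
    ext p
    simp only [MatP, Set.mem_inter_iff, Set.mem_iInter, Set.mem_ofPred_eq]
  rw [h]
  refine IsClosed.inter ?_ ?_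
  · exact isClosed_iInter fun i => isClosed_iInter fun _ => strataV_NearP i
  · exact isClosed_le (continuous_const.mul (cd _))
      ((cw _ _).sub ((cd _).sub (((continuous_const.mul (cw _ _)).sub (cd _)).abs))).abs

theorem isClosed_SS : IsClosed (SS m) := by
  have h : SS m = {p : Pt m | InX p} ∩ (({p | p .τ = 0} ∩ {p | Flat p} ∩ {p | MatP p}) ∪
      ({p | dl p 0 = 0} ∩ {p | 0 ≤ p .τ} ∩ {p | p .τ ≤ 1} ∩ {p | Flat p}) ∪ {p | SC p}) := by
    ext p
    simp only [SS, SA, SB, Set.mem_inter_iff, Set.mem_union, Set.mem_ofPred_eq]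
    tauto
  rw [h]
  refine isClosed_InX.inter (IsClosed.union (IsClosed.union ?_ ?_) strataV_SC)
  · exact ((isClosed_eq (strataV_coord _) continuous_const).inter strataV_Flat).inter strataV_MatP
  · exact (((isClosed_eq (continuous_dl _) continuous_const).inter
      (isClosed_le continuous_const (strataV_coord _))).inter
      (isClosed_le (strataV_coord _) continuous_const)).inter strataV_Flat

theorem isCompact_SS (hm : 0 < m) : IsCompact (SS m) := by
  have hK : IsCompact (Set.pi Set.univ (fun _ : Var m => Set.Icc (0 : ℝ) 1)) :=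
    isCompact_univ_pi fun _ => isCompact_Icc
  refine hK.of_isClosed_subset isClosed_SS ?_
  rintro p ⟨hX, hp⟩ v -
  have hd1 : ∀ j, dl p j ≤ 1 := fun j =>
    (hX.dl_mono (le_max_left j (2 * m))).trans (dl_top p (le_max_right j (2 * m))).le
  have htau : 0 ≤ p .τ ∧ p .τ ≤ 1 := by
    rcases hp with h | h | ⟨j, h⟩
    · rw [h.1]
      exact ⟨le_rfl, zero_le_one⟩
    · exact ⟨h.2.1, h.2.2.1⟩
    · rw [h.2.1]
      exact ⟨le_rfl, zero_le_one⟩
  have hr : 0 ≤ p .r ∧ p .r ≤ 1 := by
    rcases hp with h | h | ⟨j, h⟩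
    · rw [h.2.1.1]
      exact ⟨le_rfl, zero_le_one⟩
    · rw [h.2.2.2.1]
      exact ⟨le_rfl, zero_le_one⟩
    · exact ⟨h.2.2.1, h.2.2.2.1⟩
  have ht : ∀ j, 0 ≤ p (.t j) ∧ p (.t j) ≤ 1 := by
    intro j'
    rcases hp with h | h | ⟨j, h⟩
    · rw [h.2.1.2.1]
      exact ⟨le_rfl, zero_le_one⟩
    · rw [h.2.2.2.2.1]
      exact ⟨le_rfl, zero_le_one⟩
    · by_cases hj : j' = j
      · rw [hj, h.2.2.2.2.1]
        exact hr
      · rw [h.2.2.2.2.2.1 j' hj]
        exact ⟨le_rfl, zero_le_one⟩
  have hs : ∀ i, 0 ≤ p (.s i) ∧ p (.s i) ≤ 1 := by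
    intro i
    rcases hp with h | h | ⟨j, h⟩
    · rw [h.2.1.2.2]
      exact ⟨le_rfl, zero_le_one⟩
    · rw [h.2.2.2.2.2]
      exact ⟨le_rfl, zero_le_one⟩
    · exact ⟨(h.2.2.2.2.2.2 i).1, (h.2.2.2.2.2.2 i).2.trans hr.2⟩
  cases v with
  | u =>
    have h1 := hX.w0 (2 * m) false
    have h2 := hX.w1 (2 * m) false
    rw [dl_top p le_rfl] at h2
    unfold wv at h1 h2
    rw [dif_neg (by omega)] at h1 h2
    simp only [Bool.false_eq_true, if_false] at h1 h2
    exact ⟨h1, h2⟩
  | w j c =>
    have h1 := hX.w0 j c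
    have h2 := (hX.w1 j c).trans (hd1 j)
    unfold wv at h1 h2
    rw [dif_pos j.2] at h1 h2
    exact ⟨h1, h2⟩
  | δ j =>
    have h1 := hX.d0 j
    have h2 := hd1 j
    unfold dl at h1 h2
    rw [dif_pos j.2] at h1 h2
    exact ⟨h1, h2⟩
  | τ => exact htau
  | e l =>
    rw [hX.ev l]
    exact ⟨by positivity, pow_le_one₀ (by norm_num) (by norm_num)⟩
  | r => exact hr
  | t j => exact ht j
  | s i => exact hs i

/-- The small cube at a point of `VV`. -/
private noncomputable def strataVg (p : Pt m) (j : Fin (2 * m)) (ε : ℝ)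
    (x : Fin (8 * m + 6) → Set.Icc (0 : ℝ) 1) : Pt m
  | .u => p .u
  | .w i c => p (.w i c)
  | .δ i => p (.δ i)
  | .τ => p .τ
  | .e l => p (.e l)
  | .r => (1 - ε) * p .r + ε
  | .t j' => if j' = j then (1 - ε) * p .r + ε else p (.t j')
  | .s i => (1 - ε) * p (.s i) + ε * (x i : ℝ)

theorem cubeAt_VV (hm : 0 < m) {p : Pt m} (hp : p ∈ VV m) : CubeAt (SS m) (8 * m + 6) p := by
  obtain ⟨hX, j, h1, h2, h3, h4, h5, h6, h7⟩ := hp
  intro ε hε
  set κ : ℝ := min (ε / 2) (1 / 2) with hκ
  have hκ0 : 0 < κ := lt_min (by positivity) (by norm_num)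
  have hκε : κ ≤ ε / 2 := min_le_left _ _
  have hκ1 : κ ≤ 1 / 2 := min_le_right _ _
  have hdl : ∀ x i, dl (strataVg p j κ x) i = dl p i := by
    intro x i
    unfold dl
    by_cases hi : i < 2 * m
    · rw [dif_pos hi, dif_pos hi]
      rfl
    · rw [dif_neg hi, dif_neg hi]
  have hwv : ∀ x i c, wv (strataVg p j κ x) i c = wv p i c := by
    intro x i c
    unfold wv
    by_cases hi : i < 2 * m
    · rw [dif_pos hi, dif_pos hi]
      rfl
    · rw [dif_neg hi, dif_neg hi]
      rfl
  refine ⟨strataVg p j κ, ?_, ?_, ?_⟩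
  · refine continuous_pi fun v => ?_
    cases v with
    | u => exact continuous_const
    | w i c => exact continuous_const
    | δ i => exact continuous_const
    | τ => exact continuous_const
    | e l => exact continuous_const
    | r => exact continuous_const
    | t j' => exact continuous_const
    | s i =>
      exact continuous_const.add (continuous_const.mul
        (continuous_subtype_val.comp (continuous_apply i)))
  · intro x y hxy
    funext i
    apply Subtype.ext
    have h := congrFun hxy (.s i)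
    have h' : (1 - κ) * p (.s i) + κ * (x i : ℝ) = (1 - κ) * p (.s i) + κ * (y i : ℝ) := h
    exact mul_left_cancel₀ hκ0.ne' (add_left_cancel h')
  · intro x
    refine ⟨⟨⟨?_, ?_, ?_, ?_, ?_⟩, Or.inr (Or.inr ⟨j, ?_, ?_, ?_, ?_, ?_, ?_, ?_⟩)⟩, ?_⟩
    · intro i
      rw [hdl]
      exact hX.d0 i
    · intro i
      rw [hdl, hdl]
      exact hX.mono i
    · intro i c
      rw [hwv]
      exact hX.w0 i c
    · intro i c
      rw [hwv, hdl]
      exact hX.w1 i c
    · intro l
      exact hX.ev l
    · rw [hdl]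
      exact h1
    · exact h2
    · change 0 ≤ (1 - κ) * p .r + κ
      nlinarith
    · change (1 - κ) * p .r + κ ≤ 1
      nlinarith
    · change (if j = j then (1 - κ) * p .r + κ else p (.t j)) = (1 - κ) * p .r + κ
      rw [if_pos rfl]
    · intro j' hj'
      change (if j' = j then (1 - κ) * p .r + κ else p (.t j')) = 0
      rw [if_neg hj']
      exact h6 j' hj'
    · intro i
      have hx0 := (x i).2.1
      have hx1 := (x i).2.2
      obtain ⟨hs0, hs1⟩ := h7 i
      change 0 ≤ (1 - κ) * p (.s i) + κ * (x i : ℝ) ∧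
        (1 - κ) * p (.s i) + κ * (x i : ℝ) ≤ (1 - κ) * p .r + κ
      constructor
      · have := mul_nonneg (by linarith : (0 : ℝ) ≤ 1 - κ) hs0
        have := mul_nonneg hκ0.le hx0
        linarith
      · have := mul_le_mul_of_nonneg_left hs1 (by linarith : (0 : ℝ) ≤ 1 - κ)
        have := mul_le_mul_of_nonneg_left hx1 hκ0.le
        linarith
    · have hbound : ∀ v, dist (strataVg p j κ x v) (p v) ≤ κ := by
        intro v
        rw [Real.dist_eq]
        cases v with
        | u => change |p .u - p .u| ≤ κ; rw [sub_self, abs_zero]; exact hκ0.le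
        | w i c => change |p (.w i c) - p (.w i c)| ≤ κ; rw [sub_self, abs_zero]; exact hκ0.le
        | δ i => change |p (.δ i) - p (.δ i)| ≤ κ; rw [sub_self, abs_zero]; exact hκ0.le
        | τ => change |p .τ - p .τ| ≤ κ; rw [sub_self, abs_zero]; exact hκ0.le
        | e l => change |p (.e l) - p (.e l)| ≤ κ; rw [sub_self, abs_zero]; exact hκ0.le
        | r =>
          change |(1 - κ) * p .r + κ - p .r| ≤ κ
          rw [abs_le]
          constructor <;> nlinarith
        | t j' =>
          change |(if j' = j then (1 - κ) * p .r + κ else p (.t j')) - p (.t j')| ≤ κ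
          by_cases hj : j' = j
          · rw [if_pos hj, hj, h5, abs_le]
            constructor <;> nlinarith
          · rw [if_neg hj, sub_self, abs_zero]
            exact hκ0.le
        | s i =>
          have hx0 := (x i).2.1
          have hx1 := (x i).2.2
          obtain ⟨hs0, hs1⟩ := h7 i
          have hs2 : p (.s i) ≤ 1 := hs1.trans h4
          change |(1 - κ) * p (.s i) + κ * (x i : ℝ) - p (.s i)| ≤ κ
          have e : (1 - κ) * p (.s i) + κ * (x i : ℝ) - p (.s i) = κ * ((x i : ℝ) - p (.s i)) := by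
            ring
          rw [e, abs_mul, abs_of_pos hκ0]
          apply mul_le_of_le_one_right hκ0.le
          rw [abs_le]
          constructor <;> linarith
      have := (dist_pi_le_iff hκ0.le).mpr hbound
      linarith

/-- The coordinates which are not constant on the flat part. -/
private def strataVρ (p : Pt m) : (Unit ⊕ (Fin (2 * m) × Bool) ⊕ Fin (2 * m) ⊕ Unit) → ℝ
  | .inl _ => p .u
  | .inr (.inl jc) => p (.w jc.1 jc.2)
  | .inr (.inr (.inl j)) => p (.δ j)
  | .inr (.inr (.inr _)) => p .τ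

theorem not_cubeAt (hm : 0 < m) {p : Pt m} (hp : p ∈ SS m) (hp' : p ∉ VV m) :
    ¬ CubeAt (SS m) (8 * m + 6) p := by
  intro hc
  obtain ⟨ε, hε, hball⟩ := Metric.isOpen_iff.mp isClosed_VV.isOpen_compl p hp'
  obtain ⟨g, hg, hinj, hgS⟩ := hc ε hε
  have hflat : ∀ x, InX (g x) ∧ Flat (g x) := by
    intro x
    obtain ⟨⟨hX, hS⟩, hd⟩ := hgS x
    have hn : g x ∉ VV m := hball (Metric.mem_ball.mpr hd)
    rcases hS with h | h | h
    · exact ⟨hX, h.2.1⟩
    · exact ⟨hX, h.2.2.2⟩
    · exact absurd ⟨hX, h⟩ hn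
  have hcard : Fintype.card (Unit ⊕ (Fin (2 * m) × Bool) ⊕ Fin (2 * m) ⊕ Unit) < 8 * m + 6 := by
    simp only [Fintype.card_sum, Fintype.card_prod, Fintype.card_unit, Fintype.card_fin,
      Fintype.card_bool]
    omega
  have hρ : Continuous (strataVρ : Pt m → _) := by
    refine continuous_pi fun v => ?_
    rcases v with _ | jc | j | _
    · exact continuous_apply _
    · exact continuous_apply _
    · exact continuous_apply _
    · exact continuous_apply _
  refine no_cube hcard (fun x => strataVρ (g x)) (hρ.comp hg) ?_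
  intro x y hxy
  apply hinj
  have hxy' : strataVρ (g x) = strataVρ (g y) := hxy
  obtain ⟨hX, hF⟩ := hflat x
  obtain ⟨hX', hF'⟩ := hflat y
  funext v
  cases v with
  | u => exact congrFun hxy' (.inl ())
  | w i c => exact congrFun hxy' (.inr (.inl (i, c)))
  | δ i => exact congrFun hxy' (.inr (.inr (.inl i)))
  | τ => exact congrFun hxy' (.inr (.inr (.inr ())))
  | e l => rw [hX.ev l, hX'.ev l]
  | r => rw [hF.1, hF'.1]
  | t j => rw [hF.2.1, hF'.2.1]
  | s i => rw [hF.2.2, hF'.2.2]

theorem VV_eq (hm : 0 < m) : {p | p ∈ SS m ∧ CubeAt (SS m) (8 * m + 6) p} = VV m := by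
  ext p
  constructor
  · rintro ⟨h1, h2⟩
    by_contra h
    exact not_cubeAt hm h1 h h2
  · intro h
    exact ⟨⟨h.1, Or.inr (Or.inr h.2)⟩, cubeAt_VV hm h⟩

end Pool.Agent.Lib.MP_e75782_lc
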