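import Mathlib

/-!
# Semi-algebraic sets and triangulations: the definitions used in the statement
-/

set_option autoImplicit false

namespace Pool.Agent.Lib.MP_e75782_lc

open MvPolynomial

/-- Quantifier-free Boolean formulas whose atoms are sign conditions on `s` polynomials. -/
inductive Formula (s : ℕ) : Type
  | atom (i : Fin s) (σ : SignType) : Formula s
  | neg : Formula s → Formula s
  | and : Formula s → Formula s → Formula s
  | or : Formula s → Formula s → Formula s

/-- The truth value of a formula, given the signs `ε` of the polynomials. -/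
def Formula.Holds {s : ℕ} (ε : Fin s → SignType) : Formula s → Prop
  | .atom i σ => ε i = σ
  | .neg φ => ¬ φ.Holds ε
  | .and φ ψ => φ.Holds ε ∧ ψ.Holds ε
  | .or φ ψ => φ.Holds ε ∨ ψ.Holds ε

/-- The semi-algebraic subset of `ℝ^k` described by the polynomials `P` and the formula `φ`. -/
def semialgSet {k s : ℕ} (P : Fin s → MvPolynomial (Fin k) ℝ) (φ : Formula s) :
    Set (Fin k → ℝ) :=
  {x | φ.Holds fun i => SignType.sign (eval x (P i))}

/-- The open simplex with the vertices `σ`. -/
def openSimplex {n : ℕ} (σ : Finset (Fin n → ℝ)) : Set (Fin n → ℝ) :=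
  {x | ∃ w : (Fin n → ℝ) → ℝ, (∀ v ∈ σ, 0 < w v) ∧ ∑ v ∈ σ, w v = 1 ∧ ∑ v ∈ σ, w v • v = x}

/-- A triangulation of the set `S`: a finite simplicial complex `K` and a homeomorphism `Φ` of a union
of open simplices of `K` onto `S`. -/
structure Triangulation {E : Type} [TopologicalSpace E] (S : Set E) where
  n : ℕ
  K : Geometry.SimplicialComplex ℝ (Fin n → ℝ)
  finite : K.faces.Finite
  U : Set (Finset (Fin n → ℝ))
  subset : U ⊆ K.faces
  Φ : (⋃ σ ∈ U, openSimplex σ : Set (Fin n → ℝ)) ≃ₜ S

/-- The number of simplices of the simplicial complex. -/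
noncomputable def Triangulation.size {E : Type} [TopologicalSpace E] {S : Set E}
    (T : Triangulation S) : ℕ := T.K.faces.ncard

end Pool.Agent.Lib.MP_e75782_lc
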